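import Pool.Agent.N121.AH.Scale
import Pool.Agent.N121.OH.Arr

/-!
# Relations given by arrays of integers, at the scaled points
-/

set_option autoImplicit false
set_option linter.unusedSectionVars false

open Complex Set Filter Topology NumberField

namespace Pool.Agent.N121.AH

open Pool.Agent.Y118.HP (qm bm)
open Pool.Agent.Y890.MV
open Pool.Agent.Y890.SM
open Pool.Agent.Y890.SP (Qbar)
open Pool.Agent.N121.OH (arv)

variable {ι : Type} {n : ι → ℕ}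

/-- the torsor -/
def TorG (n : ι → ℕ) : Set ((∀ i, Matrix (Fin (mi n i)) (Fin (mi n i)) ℂ) × ℂ) :=
  {p | p.2 ≠ 0 ∧ ∀ i, p.1 i * q0 ℂ (n i) * (p.1 i).transpose = p.2 • (bm ℚ (mi n i)).map (algebraMap ℚ ℂ)}

/-- rescaling of the columns -/
noncomputable def rs (n : ι → ℕ) (s : ℝ) (Y : ∀ i, Matrix (Fin (mi n i)) (Fin (mi n i)) ℂ) (i : ι) :
    Matrix (Fin (mi n i)) (Fin (mi n i)) ℂ :=
  Matrix.of fun l j => (s : ℂ) ^ ep (n i) j * Y i l j

theorem q0_scale {m : ℕ} {s : ℝ} (hs : 0 < s) (a b : Fin (mm m)) :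
    (s : ℂ) ^ ep m a * q0 ℂ m a b * (s : ℂ) ^ ep m b = q0 ℂ m a b := by
  have hs0 : (s : ℂ) ≠ 0 := by exact_mod_cast hs.ne'
  have ha : (a : ℕ) < 2 * (m / 2) := a.2
  have hb : (b : ℕ) < 2 * (m / 2) := b.2
  unfold q0 ep
  rw [Matrix.of_apply]
  by_cases h1 : (b : ℕ) = a + m / 2
  · rw [if_pos h1, if_pos (by omega), if_neg (by omega), zpow_neg_one, zpow_one]
    field_simp
  · by_cases h2 : (a : ℕ) = b + m / 2
    · rw [if_neg h1, if_pos h2, if_neg (by omega), if_pos (by omega), zpow_neg_one, zpow_one]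
      field_simp
    · rw [if_neg h1, if_neg h2, mul_zero, zero_mul]

theorem rs_tor {s : ℝ} (hs : 0 < s) {Y : ∀ i, Matrix (Fin (mi n i)) (Fin (mi n i)) ℂ} {μ : ℂ} :
    ((rs n s Y, μ) ∈ TorG n ↔ (Y, μ) ∈ TorG n) := by
  unfold TorG
  simp only [Set.mem_ofPred_eq]
  refine and_congr_right fun _ => forall_congr' fun i => ?_
  have h1 : rs n s Y i * q0 ℂ (n i) * (rs n s Y i).transpose = Y i * q0 ℂ (n i) * (Y i).transpose := by
    ext r t
    simp only [Matrix.mul_apply, Matrix.transpose_apply, Finset.sum_mul]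
    refine Finset.sum_congr rfl fun a _ => Finset.sum_congr rfl fun b _ => ?_
    have h5 := q0_scale hs b a
    unfold rs
    rw [Matrix.of_apply, Matrix.of_apply]
    linear_combination (Y i r b * Y i t a) * h5
  rw [h1]

/-- the matrices of the periods -/
noncomputable def PM (n : ι → ℕ) (a : (Σ i, Fin (n i + 2)) → ℂ) (e : ∀ i, Fin (n i + 1) → ℂ) (i : ι) :
    Matrix (Fin (mi n i)) (Fin (mi n i)) ℂ := PF (fp (pj a i)) (e i)

/-- the scaled point -/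
noncomputable def scp (n : ι → ℕ) (s : ℝ) (x : (Σ i, Fin (n i + 2)) → ℂ) (q : Σ i, Fin (n i + 2)) : ℂ :=
  ((s ^ 2 : ℝ) : ℂ) * x q

theorem rs_PM {s : ℝ} (hs : 0 < s) {x : (Σ i, Fin (n i + 2)) → ℂ} (hx : x ∈ UU n) :
    PM n (scp n s x) (fun i => er (pj (scp n s x) i)) = rs n s fun i => PA (pj x i) := by
  funext i
  ext l j
  have h1 : pj (scp n s x) i ∈ U2 (n i) := (sc_mem hs (hx i)).1
  unfold PM
  rw [PF_eq h1]
  exact PA_scale hs (hx i) l j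

/-- inverse of the rescaling -/
theorem rs_inv {s : ℝ} (hs : 0 < s) (Y : ∀ i, Matrix (Fin (mi n i)) (Fin (mi n i)) ℂ) :
    rs n s (fun i => Matrix.of fun l j => (s : ℂ) ^ (-ep (n i) j) * Y i l j) = Y := by
  have hs0 : (s : ℂ) ≠ 0 := by exact_mod_cast hs.ne'
  funext i
  ext l j
  show (s : ℂ) ^ ep (n i) j * ((s : ℂ) ^ (-ep (n i) j) * Y i l j) = Y i l j
  rw [← mul_assoc, ← zpow_add₀ hs0, add_neg_cancel, zpow_zero, one_mul]

variable [Fintype ι] [DecidableEq ι]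

/-- the exponents of the side -/
def exq {k : ℕ} (n : ι → ℕ) (l : Ix (mi n) → Fin (k + 1)) : ℕ :=
  ∑ y : Ix (mi n), (if (y.2.2 : ℕ) < n y.1 / 2 then k - (l y : ℕ) else k + (l y : ℕ))

/-- the total exponent -/
def exL (n : ι → ℕ) (k : ℕ) : ℕ := ∑ _y : Ix (mi n), k

theorem exq_le {k : ℕ} (l : Ix (mi n) → Fin (k + 1)) : exq n l ≤ 2 * exL n k := by
  unfold exq exL
  rw [Finset.mul_sum]
  refine Finset.sum_le_sum fun y _ => ?_
  have h1 : (l y : ℕ) ≤ k := Nat.lt_succ_iff.1 (l y).2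
  split_ifs <;> omega

theorem exq_eq {k : ℕ} {s : ℝ} (hs : 0 < s) (Y : ∀ i, Matrix (Fin (mi n i)) (Fin (mi n i)) ℂ)
    (l : Ix (mi n) → Fin (k + 1)) :
    (s : ℂ) ^ exL n k * ∏ y : Ix (mi n), (rs n s Y y.1 y.2.1 y.2.2) ^ (l y : ℕ) =
      (s : ℂ) ^ exq n l * ∏ y : Ix (mi n), (Y y.1 y.2.1 y.2.2) ^ (l y : ℕ) := by
  have hs0 : (s : ℂ) ≠ 0 := by exact_mod_cast hs.ne'
  unfold exL exq
  rw [← Finset.prod_pow_eq_pow_sum, ← Finset.prod_pow_eq_pow_sum, ← Finset.prod_mul_distrib,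
    ← Finset.prod_mul_distrib]
  refine Finset.prod_congr rfl fun y _ => ?_
  unfold rs ep
  rw [Matrix.of_apply, mul_pow, ← mul_assoc]
  congr 1
  have h1 : (l y : ℕ) ≤ k := Nat.lt_succ_iff.1 (l y).2
  obtain ⟨d, hd⟩ := Nat.exists_eq_add_of_le h1
  have h2 : k - (l y : ℕ) = d := by omega
  have h5 : (s : ℂ) ^ k = s ^ (l y : ℕ) * s ^ d := by rw [← pow_add, ← hd]
  split_ifs with h3
  · rw [h2, zpow_neg_one, h5, inv_pow]
    field_simp
  · rw [zpow_one, ← pow_add]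

/-- scaled arrays -/
theorem arv_scale {k : ℕ} {h : Type} [Fintype h] {s : ℝ} (hs : 0 < s) (c : (Ix (mi n) → Fin (k + 1)) → h → ℂ)
    (v : h → ℂ) (Y : ∀ i, Matrix (Fin (mi n i)) (Fin (mi n i)) ℂ) :
    (s : ℂ) ^ exL n k * arv c v (rs n s Y) = arv (fun l a => (s : ℂ) ^ exq n l * c l a) v Y := by
  unfold arv
  rw [Finset.mul_sum]
  refine Finset.sum_congr rfl fun l _ => ?_
  have h1 := exq_eq hs Y l
  have h2 : (∑ a, v a * ((s : ℂ) ^ exq n l * c l a)) = (s : ℂ) ^ exq n l * ∑ a, v a * c l a := by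
    rw [Finset.mul_sum]
    refine Finset.sum_congr rfl fun a _ => ?_
    ring
  rw [h2]
  linear_combination (∑ a, v a * c l a) * h1

theorem Q_eval (a : (Σ i, Fin (n i + 2)) → ℂ) (i : ι) :
    ((ahF n).Q i).map (MvPolynomial.aeval a) = q0 ℂ (n i) := by
  show ((q0 Qbar (n i)).map MvPolynomial.C).map (MvPolynomial.aeval a) = q0 ℂ (n i)
  rw [← q0_map (algebraMap Qbar ℂ)]
  refine Matrix.ext fun r s => ?_
  rw [Matrix.map_apply, Matrix.map_apply, Matrix.map_apply, MvPolynomial.aeval_C]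

theorem F0_tor {x : (Σ i, Fin (n i + 2)) → ℂ} {Y : Ix (mi n) → ℂ} :
    Y ∈ (ahF n).Tor x ↔ ((fun i => bl Y i), tpi) ∈ TorG n := by
  unfold TorG SympFam.Tor
  simp only [Set.mem_ofPred_eq]
  constructor
  · intro h
    refine ⟨tpi_ne, fun i => ?_⟩
    have h1 : bl Y i * ((ahF n).Q i).map (MvPolynomial.aeval x) * (bl Y i).transpose =
      tpi ^ 1 • (bm ℚ (mi n i)).map (algebraMap ℚ ℂ) := h i
    rw [Q_eval, pow_one] at h1
    exact h1
  · rintro ⟨_, h⟩ i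
    show bl Y i * ((ahF n).Q i).map (MvPolynomial.aeval x) * (bl Y i).transpose =
      tpi ^ 1 • (bm ℚ (mi n i)).map (algebraMap ℚ ℂ)
    rw [Q_eval, pow_one]
    exact h i

/-- the integral array with values in the ring of integers of `ℚ` -/
def zc {k : ℕ} {h : Type} (S : ℕ) (c : (Ix (mi n) → Fin (k + 1)) → h → ℤ) (l : Ix (mi n) → Fin (k + 1)) (a : h) : 𝓞 ℚ :=
  ((S : ℤ) ^ exq n l * c l a : ℤ)

theorem zc_map {k : ℕ} {h : Type} (S : ℕ) (c : (Ix (mi n) → Fin (k + 1)) → h → ℤ) (l : Ix (mi n) → Fin (k + 1)) (a : h)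
    (φ : ℚ →+* ℂ) : φ (zc S c l a : ℚ) = (S : ℂ) ^ exq n l * (c l a : ℂ) := by
  unfold zc
  simp

/-- **Relations given by arrays**: outside the exceptional sets of the family, at the scaled point -/
theorem good_arr {k : ℕ} {h : Type} [Fintype h] {v : h → ℂ} {S : ℕ} (hS : 0 < S)
    {xq : (Σ i, Fin (n i + 2)) → ℚ} {Lc : Set ((Σ i, Fin (n i + 2)) → ℂ)} {A T : ℝ}
    (h1 : ∀ j, Y120.HtLe ℚ T (xq j)) (h2 : (fun j => (algebraMap ℚ ℂ) (xq j)) ∈ Lc) (hL : Lc ⊆ (ahF n).U)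
    (h3 : xq ∉ ExcT k (ahF n).f (ahF n).Tor Lc ℚ (algebraMap ℚ ℂ) v A T)
    (c : (Ix (mi n) → Fin (k + 1)) → h → ℤ) (hc : ∀ l a, (S : ℝ) ^ (2 * exL n k) * |(c l a : ℝ)| ≤ T ^ A)
    (h4 : arv (fun l a => (c l a : ℂ)) v (PM n (scp n S fun j => (algebraMap ℚ ℂ) (xq j))
      (fun i => er (pj (scp n S fun j => (algebraMap ℚ ℂ) (xq j)) i))) = 0) :
    (∀ Y, (Y, tpi) ∈ TorG n → arv (fun l a => (c l a : ℂ)) v Y = 0) ∧
    ∀ Y ∈ (ahF n).Tor (fun j => (algebraMap ℚ ℂ) (xq j)),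
      ∑ l, (∑ a, v a * (algebraMap ℚ ℂ) (zc S c l a : ℚ)) * ∏ y, Y y ^ (l y : ℕ) = 0 := by
  classical
  set x : (Σ i, Fin (n i + 2)) → ℂ := fun j => (algebraMap ℚ ℂ) (xq j) with hx
  have hS0 : (0 : ℝ) < (S : ℝ) := by exact_mod_cast hS
  have hSC : ((S : ℝ) : ℂ) ≠ 0 := by exact_mod_cast hS0.ne'
  have hxU : x ∈ UU n := hL h2
  have hS1 : (1 : ℝ) ≤ S := by exact_mod_cast hS
  have hcast : (fun (l : Ix (mi n) → Fin (k + 1)) (a : h) => ((S : ℝ) : ℂ) ^ exq n l * (c l a : ℂ)) =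
      fun l a => (algebraMap ℚ ℂ) (zc S c l a : ℚ) := by
    funext l a
    rw [zc_map]
    push_cast
    rfl
  have key : ∀ Y ∈ (ahF n).Tor x,
      ∑ l, (∑ a, v a * (algebraMap ℚ ℂ) (zc S c l a : ℚ)) * ∏ y, Y y ^ (l y : ℕ) = 0 := by
    by_contra hne
    apply h3
    refine ⟨h1, h2, zc S c, ?_, ?_, hne⟩
    · intro l a φ
      rw [zc_map, norm_mul, norm_pow]
      have e1 : ‖(S : ℂ)‖ = (S : ℝ) := by simp
      have e2 : ‖(c l a : ℂ)‖ = |(c l a : ℝ)| := by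
        rw [← Complex.ofReal_intCast, Complex.norm_real, Real.norm_eq_abs]
      rw [e1, e2]
      refine le_trans ?_ (hc l a)
      exact mul_le_mul_of_nonneg_right (pow_le_pow_right₀ hS1 (exq_le l)) (abs_nonneg _)
    · have e1 := arv_scale hS0 (fun l a => (c l a : ℂ)) v (fun i => PA (pj x i))
      rw [← rs_PM hS0 hxU, h4, mul_zero, hcast] at e1
      exact e1.symm
  refine ⟨fun Y hY => ?_, key⟩
  set Z : ∀ i, Matrix (Fin (mi n i)) (Fin (mi n i)) ℂ := fun i =>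
    Matrix.of fun l j => ((S : ℝ) : ℂ) ^ (-ep (n i) j) * Y i l j with hZ
  have hZY : rs n S Z = Y := rs_inv hS0 Y
  rw [← hZY, rs_tor hS0] at hY
  have h5 : (fun q : Ix (mi n) => Z q.1 q.2.1 q.2.2) ∈ (ahF n).Tor x := by
    rw [F0_tor]
    exact hY
  have h6 := key _ h5
  have e1 := arv_scale hS0 (fun l a => (c l a : ℂ)) v Z
  rw [hcast] at e1
  have e2 : arv (fun l a => (algebraMap ℚ ℂ) (zc S c l a : ℚ)) v Z = 0 := h6
  rw [e2, hZY] at e1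
  exact (mul_eq_zero.1 e1).resolve_left (pow_ne_zero _ hSC)

/-- relations with powers of `2 π i` as coefficients: all multipliers -/
theorem good_full {k h : ℕ} {S : ℕ} (hS : 0 < S)
    {xq : (Σ i, Fin (n i + 2)) → ℚ} {Lc : Set ((Σ i, Fin (n i + 2)) → ℂ)} {A T : ℝ}
    (h1 : ∀ j, Y120.HtLe ℚ T (xq j)) (h2 : (fun j => (algebraMap ℚ ℂ) (xq j)) ∈ Lc) (hL : Lc ⊆ (ahF n).U)
    (h3 : xq ∉ ExcT k (ahF n).f (ahF n).Tor Lc ℚ (algebraMap ℚ ℂ) (fun a : Fin h => tpi ^ (a : ℕ)) A T)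
    (c : (Ix (mi n) → Fin (k + 1)) → Fin h → ℤ) (hc : ∀ l a, (S : ℝ) ^ (2 * exL n k) * |(c l a : ℝ)| ≤ T ^ A)
    (h4 : arv (fun l a => (c l a : ℂ)) (fun a : Fin h => tpi ^ (a : ℕ))
      (PM n (scp n S fun j => (algebraMap ℚ ℂ) (xq j))
      (fun i => er (pj (scp n S fun j => (algebraMap ℚ ℂ) (xq j)) i))) = 0) :
    ∀ p ∈ TorG n, arv (fun l a => (c l a : ℂ)) (fun a : Fin h => p.2 ^ (a : ℕ)) p.1 = 0 := by
  classical
  obtain ⟨-, h5⟩ := good_arr hS h1 h2 hL h3 c hc h4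
  set x : (Σ i, Fin (n i + 2)) → ℂ := fun j => (algebraMap ℚ ℂ) (xq j) with hx
  have hS0 : (0 : ℝ) < (S : ℝ) := by exact_mod_cast hS
  have hSC : ((S : ℝ) : ℂ) ≠ 0 := by exact_mod_cast hS0.ne'
  have hcast : (fun (l : Ix (mi n) → Fin (k + 1)) (a : Fin h) => ((S : ℝ) : ℂ) ^ exq n l * (c l a : ℂ)) =
      fun l a => (algebraMap ℚ ℂ) (zc S c l a : ℚ) := by
    funext l a
    rw [zc_map]
    push_cast
    rfl
  rintro ⟨Y, μ⟩ hY
  set Z : ∀ i, Matrix (Fin (mi n i)) (Fin (mi n i)) ℂ := fun i =>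
    Matrix.of fun l j => ((S : ℝ) : ℂ) ^ (-ep (n i) j) * Y i l j with hZ
  have hZY : rs n S Z = Y := rs_inv hS0 Y
  rw [← hZY, rs_tor hS0] at hY
  have h6 := (ahF n).full (algebraMap ℚ ℂ) xq (hL h2) (fun l a => (zc S c l a : ℚ)) h5 hY.1
    (fun q : Ix (mi n) => Z q.1 q.2.1 q.2.2) (fun i => by
      have e1 := hY.2 i
      show bl (fun q : Ix (mi n) => Z q.1 q.2.1 q.2.2) i * ((ahF n).Q i).map (MvPolynomial.aeval x) *
        (bl (fun q : Ix (mi n) => Z q.1 q.2.1 q.2.2) i).transpose = μ ^ 1 • (bm ℚ (mi n i)).map (algebraMap ℚ ℂ)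
      rw [Q_eval, pow_one]
      exact e1)
  have e1 := arv_scale hS0 (fun l a => (c l a : ℂ)) (fun a : Fin h => μ ^ (a : ℕ)) Z
  rw [hcast] at e1
  have e2 : arv (fun l a => (algebraMap ℚ ℂ) (zc S c l a : ℚ)) (fun a : Fin h => μ ^ (a : ℕ)) Z = 0 := h6
  rw [e2, hZY] at e1
  exact (mul_eq_zero.1 e1).resolve_left (pow_ne_zero _ hSC)

end Pool.Agent.N121.AH
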