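import Pool.Agent.N121.AH.Leg
import Pool.Agent.N121.OH.Fam

/-!
# A symplectic basis of the forms of the second kind
-/

set_option autoImplicit false
set_option linter.unusedSectionVars false

open Matrix

namespace Pool.Agent.N121.AH

open Pool.Agent.Y118.HP (jm jm_apply SpS jm_det jm_transpose jm_map SpS_map qm dl dl_ne dl_mul bm bm_eq perC TV sp_gen jm_mulVec
  ext0)
open Pool.Agent.Y890.HE
open Pool.Agent.N121.OH

/-- the number of the forms -/
abbrev mm (n : ℕ) : ℕ := 2 * (n / 2)

theorem mm_le (n : ℕ) : mm n ≤ n := by unfold mm; omega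

theorem mm_even (n : ℕ) : Even (mm n) := even_two_mul _

/-- the first rows -/
abbrev cst {n : ℕ} (l : Fin (mm n)) : Fin n := Fin.castLE (mm_le n) l

variable {n : ℕ}

section ring

variable {K : Type*} [Field K]

/-- the coefficients of the forms `ω_i = x^i dx/y` and `η_i = ∑_(i<k) (i-k)/2 c_(i+k+2) x^k dx/y` -/
noncomputable def cf (n : ℕ) (F : Polynomial K) : Matrix (Fin n) (Fin (mm n)) K :=
  Matrix.of fun k i => if (i : ℕ) < n / 2 then (if (k : ℕ) = i then 1 else 0) else
    (if (i : ℕ) - n / 2 < k then ((((i : ℕ) - n / 2 : ℕ) : K) - ((k : ℕ) : K)) / 2 *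
      F.coeff ((i : ℕ) - n / 2 + k + 2) else 0)

/-- the standard symplectic matrix -/
def q0 (K : Type*) [Ring K] (n : ℕ) : Matrix (Fin (mm n)) (Fin (mm n)) K :=
  Matrix.of fun r s => if (s : ℕ) = r + n / 2 then 1 else if (r : ℕ) = s + n / 2 then -1 else 0

theorem q0_transpose : (q0 K n).transpose = -q0 K n := by
  ext r s
  rw [Matrix.transpose_apply, Matrix.neg_apply]
  unfold q0
  rw [Matrix.of_apply, Matrix.of_apply]
  have hr := r.2
  have hs := s.2
  have hr' : (r : ℕ) < 2 * (n / 2) := hr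
  by_cases h1 : (s : ℕ) = r + n / 2
  · rw [if_pos h1, if_neg (by omega), if_pos h1]
  · by_cases h2 : (r : ℕ) = s + n / 2
    · rw [if_pos h2, if_neg h1, if_pos h2, neg_neg]
    · rw [if_neg h2, if_neg h1, if_neg h1, if_neg h2, neg_zero]

theorem q0_map {L : Type*} [Field L] (φ : K →+* L) : (q0 K n).map φ = q0 L n := by
  ext r s
  rw [Matrix.map_apply]
  unfold q0
  rw [Matrix.of_apply, Matrix.of_apply]
  split_ifs <;> simp

theorem dn_lt (r : Fin (mm n)) : (r : ℕ) - n / 2 < mm n := by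
  have h : (r : ℕ) < 2 * (n / 2) := r.2
  show _ < 2 * (n / 2)
  omega

/-- the row sums -/
theorem q0_row (v : Fin (mm n) → K) (r : Fin (mm n)) :
    ∑ s, q0 K n r s * v s = if h : (r : ℕ) < n / 2 then v ⟨r + n / 2, by show _ < 2 * (n / 2); omega⟩ else
      -v ⟨r - n / 2, dn_lt r⟩ := by
  have hr : (r : ℕ) < 2 * (n / 2) := r.2
  unfold q0
  simp only [Matrix.of_apply]
  split_ifs with h
  · rw [Finset.sum_eq_single (⟨r + n / 2, by show _ < 2 * (n / 2); omega⟩ : Fin (mm n))]
    · simp
    · intro s _ hs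
      have h1 : ¬ ((s : ℕ) = r + n / 2) := fun h1 => hs (Fin.ext h1)
      rw [if_neg h1, if_neg (by omega), zero_mul]
    · intro h1
      exact absurd (Finset.mem_univ _) h1
  · rw [Finset.sum_eq_single (⟨r - n / 2, dn_lt r⟩ : Fin (mm n))]
    · simp only
      rw [if_neg (by omega), if_pos (by omega)]
      ring
    · intro s _ hs
      have h1 : ¬ ((s : ℕ) = r - n / 2) := fun h1 => hs (Fin.ext h1)
      have hs2 : (s : ℕ) < 2 * (n / 2) := s.2
      rw [if_neg (by omega), if_neg (by omega), zero_mul]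
    · intro h1
      exact absurd (Finset.mem_univ _) h1

/-- **the polarisation in terms of the basis is constant** -/
theorem cf_q0 (F : Polynomial K) (hF : ∀ m, n + 1 < m → F.coeff m = 0) :
    cf n F * q0 K n * (cf n F).transpose = qm n F := by
  ext k l
  have hk := k.2
  have hl := l.2
  rw [Matrix.mul_assoc, Matrix.mul_apply]
  have h1 : ∀ r : Fin (mm n), (q0 K n * (cf n F).transpose) r l =
      if h : (r : ℕ) < n / 2 then cf n F l ⟨r + n / 2, by show _ < 2 * (n / 2); omega⟩ else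
      -cf n F l ⟨r - n / 2, dn_lt r⟩ := by
    intro r
    rw [Matrix.mul_apply]
    simp only [Matrix.transpose_apply]
    exact q0_row (fun s => cf n F l s) r
  simp only [h1]
  -- the part with holomorphic forms on the left
  have h2 : ∀ r : Fin (mm n), cf n F k r * (if h : (r : ℕ) < n / 2 then
      cf n F l ⟨r + n / 2, by show _ < 2 * (n / 2); omega⟩ else
      -cf n F l ⟨r - n / 2, dn_lt r⟩) =
      (if (k : ℕ) = r ∧ (r : ℕ) < n / 2 then (if (k : ℕ) < l then (((k : ℕ) : K) - ((l : ℕ) : K)) / 2 *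
        F.coeff ((k : ℕ) + l + 2) else 0) else 0) -
      (if (r : ℕ) = l + n / 2 then (if (l : ℕ) < k then (((l : ℕ) : K) - ((k : ℕ) : K)) / 2 *
        F.coeff ((l : ℕ) + k + 2) else 0) else 0) := by
    intro r
    have hr : (r : ℕ) < 2 * (n / 2) := r.2
    unfold cf
    simp only [Matrix.of_apply]
    by_cases h : (r : ℕ) < n / 2
    · rw [if_pos h, dif_pos h, if_neg (by omega : ¬ (r : ℕ) + n / 2 < n / 2), Nat.add_sub_cancel,
        if_neg (by omega : ¬ (r : ℕ) = l + n / 2), sub_zero]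
      by_cases h3 : (k : ℕ) = r
      · rw [h3, if_pos rfl, if_pos (⟨rfl, h⟩ : (r : ℕ) = r ∧ (r : ℕ) < n / 2), one_mul]
      · rw [if_neg h3, if_neg (fun h4 : (k : ℕ) = r ∧ (r : ℕ) < n / 2 => h3 h4.1), zero_mul]
    · rw [if_neg h, dif_neg h, if_pos (by omega : (r : ℕ) - n / 2 < n / 2),
        if_neg (fun h4 : (k : ℕ) = r ∧ (r : ℕ) < n / 2 => h h4.2), zero_sub]
      by_cases h3 : (r : ℕ) = l + n / 2
      · have h5 : (l : ℕ) = (r : ℕ) - n / 2 := by omega
        rw [if_pos h3, if_pos h5, h5]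
        ring
      · have h5 : ¬ (l : ℕ) = (r : ℕ) - n / 2 := by omega
        rw [if_neg h3, if_neg h5]
        ring
  simp only [h2]
  rw [Finset.sum_sub_distrib]
  have h3 : ∑ r : Fin (mm n), (if (k : ℕ) = r ∧ (r : ℕ) < n / 2 then (if (k : ℕ) < l then
      (((k : ℕ) : K) - ((l : ℕ) : K)) / 2 * F.coeff ((k : ℕ) + l + 2) else 0) else 0) =
      if (k : ℕ) < l then (((k : ℕ) : K) - ((l : ℕ) : K)) / 2 * F.coeff ((k : ℕ) + l + 2) else 0 := by
    by_cases h : (k : ℕ) < n / 2
    · rw [Finset.sum_eq_single (⟨k, by show _ < 2 * (n / 2); omega⟩ : Fin (mm n))]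
      · rw [if_pos ⟨rfl, h⟩]
      · intro r _ hr
        rw [if_neg]
        exact fun h4 => hr (Fin.ext h4.1.symm)
      · intro h1
        exact absurd (Finset.mem_univ _) h1
    · rw [Finset.sum_eq_zero]
      · split_ifs with h4
        · rw [hF _ (by omega), mul_zero]
        · rfl
      · intro r _
        rw [if_neg]
        rintro ⟨h4, h5⟩
        omega
  have h4 : ∑ r : Fin (mm n), (if (r : ℕ) = l + n / 2 then (if (l : ℕ) < k then
      (((l : ℕ) : K) - ((k : ℕ) : K)) / 2 * F.coeff ((l : ℕ) + k + 2) else 0) else 0) =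
      if (l : ℕ) < k then (((l : ℕ) : K) - ((k : ℕ) : K)) / 2 * F.coeff ((l : ℕ) + k + 2) else 0 := by
    by_cases h : (l : ℕ) < n / 2
    · rw [Finset.sum_eq_single (⟨l + n / 2, by show _ < 2 * (n / 2); omega⟩ : Fin (mm n))]
      · rw [if_pos rfl]
      · intro r _ hr
        rw [if_neg]
        exact fun h4 => hr (Fin.ext h4)
      · intro h1
        exact absurd (Finset.mem_univ _) h1
    · rw [Finset.sum_eq_zero]
      · split_ifs with h4
        · rw [hF _ (by omega), mul_zero]
        · rfl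
      · intro r _
        have hr : (r : ℕ) < 2 * (n / 2) := r.2
        rw [if_neg]
        omega
  rw [h3, h4]
  unfold qm
  rw [Matrix.of_apply]
  rcases lt_trichotomy (k : ℕ) l with h | h | h
  · rw [if_pos h, if_neg (by omega), sub_zero]
  · rw [if_neg (by omega), if_neg (by omega), h]
    ring
  · rw [if_neg (by omega), if_pos h, show (l : ℕ) + k + 2 = k + l + 2 by omega]
    ring

end ring

/-- the standard symplectic matrix is invertible -/
theorem q0_sq {K : Type*} [Field K] : q0 K n * q0 K n = -1 := by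
  ext r t
  rw [Matrix.mul_apply, q0_row (fun s => q0 K n s t) r]
  have hr : (r : ℕ) < 2 * (n / 2) := r.2
  have ht : (t : ℕ) < 2 * (n / 2) := t.2
  rw [Matrix.neg_apply, Matrix.one_apply]
  unfold q0
  simp only [Matrix.of_apply]
  by_cases hrt : r = t
  · subst hrt
    rw [if_pos rfl]
    split_ifs with h1 h2 h3 h4 h5
    · omega
    · rfl
    · omega
    · rfl
    · omega
    · omega
  · have hrt' : ¬ (r : ℕ) = t := fun h => hrt (Fin.ext h)
    rw [if_neg hrt, neg_zero]
    split_ifs with h1 h2 h3 h4 h5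
    · omega
    · omega
    · rfl
    · omega
    · omega
    · exact neg_zero

theorem q0_det {K : Type*} [Field K] : (q0 K n).det ≠ 0 := by
  intro h0
  have h1 := congrArg Matrix.det (q0_sq (K := K) (n := n))
  rw [Matrix.det_mul, h0, mul_zero, Matrix.det_neg, Matrix.det_one, mul_one] at h1
  exact pow_ne_zero _ (neg_ne_zero.2 one_ne_zero) h1.symm

/-- the restriction of the intersection form to the first loops -/
theorem bm_sub {K : Type*} [Ring K] : (bm K n).submatrix cst cst = bm K (mm n) := by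
  ext r s
  rfl

theorem jm_sub {K : Type*} [Ring K] : (jm K n).submatrix cst cst = jm K (mm n) := by
  ext r s
  rfl

/-- extension by zero -/
noncomputable def ez (v : Fin (mm n) → ℂ) : Fin n → ℂ := fun i => if h : (i : ℕ) < mm n then v ⟨i, h⟩ else 0

theorem ez_cst (v : Fin (mm n) → ℂ) (r : Fin (mm n)) : ez v (cst r) = v r := by
  unfold ez
  rw [dif_pos (show ((cst r : Fin n) : ℕ) < mm n from r.2)]
  rfl

theorem ext0_ez (v : Fin (mm n) → ℂ) (i : ℕ) : ext0 (ez v) i = ext0 v i := by
  unfold ext0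
  by_cases h : i < mm n
  · rw [dif_pos h, dif_pos (h.trans_le (mm_le n))]
    unfold ez
    rw [dif_pos h]
  · rw [dif_neg h]
    by_cases h2 : i < n
    · rw [dif_pos h2]
      unfold ez
      rw [dif_neg h]
    · rw [dif_neg h2]

/-- transvections of the first rows -/
theorem TV_ez (v : Fin (mm n) → ℂ) (s : ℂ) {κ : Type*} [Fintype κ] (X : Matrix (Fin n) κ ℂ) (r : Fin (mm n)) (j : κ) :
    (TV (ez v) s * X) (cst r) j = (TV v s * X.submatrix cst id) r j := by
  have h1 : ∀ k, (∑ i, ez v i * X i k) = ∑ i, v i * X (cst i) k := by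
    intro k
    symm
    have h2 : ∑ i : Fin (mm n), v i * X (cst i) k = ∑ i ∈ Finset.univ.map ⟨cst, fun a b h => by
        exact Fin.ext (by simpa using congrArg Fin.val h)⟩, ez v i * X i k := by
      rw [Finset.sum_map]
      refine Finset.sum_congr rfl fun i _ => ?_
      show v i * X (cst i) k = ez v (cst i) * X (cst i) k
      rw [ez_cst]
    rw [h2]
    refine Finset.sum_subset (Finset.subset_univ _) fun i _ hi => ?_
    have h3 : ¬ (i : ℕ) < mm n := by
      intro h3
      apply hi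
      rw [Finset.mem_map]
      exact ⟨⟨i, h3⟩, Finset.mem_univ _, rfl⟩
    unfold ez
    rw [dif_neg h3, zero_mul]
  have h2 : (jm ℂ n *ᵥ ez v) (cst r) = (jm ℂ (mm n) *ᵥ v) r := by
    rw [jm_mulVec, jm_mulVec, ext0_ez, ext0_ez]
    rfl
  unfold TV
  rw [Matrix.add_mul, Matrix.add_mul, Matrix.one_mul, Matrix.one_mul, Matrix.smul_mul, Matrix.smul_mul,
    Matrix.add_apply, Matrix.add_apply, Matrix.smul_apply, Matrix.smul_apply]
  congr 1
  congr 1
  rw [Matrix.mul_apply, Matrix.mul_apply]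
  simp only [vecMulVec_apply, Matrix.submatrix_apply, id_eq]
  have h3 : ∀ i, (jm ℂ n *ᵥ ez v) (cst r) * ez v i * X i j = (jm ℂ n *ᵥ ez v) (cst r) * (ez v i * X i j) := fun i =>
    mul_assoc _ _ _
  have h4 : ∀ i, (jm ℂ (mm n) *ᵥ v) r * v i * X (cst i) j = (jm ℂ (mm n) *ᵥ v) r * (v i * X (cst i) j) := fun i =>
    mul_assoc _ _ _
  simp only [h3, h4, ← Finset.mul_sum]
  rw [h1, h2]

end Pool.Agent.N121.AH
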