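import Pool.Agent.N121.AH.Bas
import Pool.Agent.N121.OH.Per

/-!
# The family of all hyperelliptic curves, with the coefficients as coordinates: one curve
-/

set_option autoImplicit false
set_option linter.unusedSectionVars false

open Filter Matrix Topology

namespace Pool.Agent.N121.AH

open Pool.Agent.Y118.HP (jm jm_apply SpS jm_det jm_transpose jm_map SpS_map qm dl dl_ne dl_mul bm bm_eq perC TV sp_gen)
open Pool.Agent.Y890.MV
open Pool.Agent.Y890.HE
open Pool.Agent.Y890.SM
open Pool.Agent.Y890.SP (Qbar)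
open Pool.Agent.N121.OH

/-- the direction -/
noncomputable def w0 : ℂ := (1 + Complex.I : ℂ) ^ (1 / 2 : ℂ)

theorem w0_sq : w0 ^ 2 = 1 + Complex.I := w_sq

theorem w0_ne : w0 ≠ 0 := w_ne

/-- the direction -/
noncomputable def u0 : ℂ := 1 + Complex.I

theorem u0_ne : u0 ≠ 0 := u_ne

variable {n : ℕ}

section ring

variable {R : Type*} [CommRing R]

/-- the polynomial with the given coefficients -/
noncomputable def fp (a : Fin (n + 2) → R) : Polynomial R := ∑ k : Fin (n + 2), Polynomial.C (a k) * Polynomial.X ^ (k : ℕ)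

theorem fp_coeff (a : Fin (n + 2) → R) (m : ℕ) : (fp a).coeff m = if h : m < n + 2 then a ⟨m, h⟩ else 0 := by
  unfold fp
  rw [Polynomial.finsetSum_coeff]
  split_ifs with h
  · rw [Finset.sum_eq_single (⟨m, h⟩ : Fin (n + 2))]
    · simp
    · intro b _ hb
      rw [Polynomial.coeff_C_mul, Polynomial.coeff_X_pow, if_neg, mul_zero]
      exact fun h => hb (Fin.ext h.symm)
    · intro h
      exact absurd (Finset.mem_univ _) h
  · refine Finset.sum_eq_zero fun b _ => ?_
    rw [Polynomial.coeff_C_mul, Polynomial.coeff_X_pow, if_neg, mul_zero]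
    have := b.2
    omega

theorem fp_coeff_fin (a : Fin (n + 2) → R) (m : Fin (n + 2)) : (fp a).coeff (m : ℕ) = a m := by
  rw [fp_coeff, dif_pos m.2]

theorem fp_big (a : Fin (n + 2) → R) {m : ℕ} (h : n + 1 < m) : (fp a).coeff m = 0 := by
  rw [fp_coeff, dif_neg (by omega)]

theorem map_fp {S : Type*} [CommRing S] (φ : R →+* S) (a : Fin (n + 2) → R) : (fp a).map φ = fp (fun m => φ (a m)) := by
  unfold fp
  simp [Polynomial.map_sum]

end ring

/-- the coefficients of the monic polynomial -/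
noncomputable def bq (a : Fin (n + 2) → ℂ) : Fin (n + 1) → ℂ := fun k => a k.castSucc / a (Fin.last (n + 1))

theorem fp_eq {a : Fin (n + 2) → ℂ} (ha : a (Fin.last (n + 1)) ≠ 0) :
    fp a = Polynomial.C (a (Fin.last (n + 1))) * cp (bq a) := by
  ext m
  rw [fp_coeff, Polynomial.coeff_C_mul, cp_coeff']
  by_cases h1 : m < n + 1
  · rw [dif_pos (by omega), dif_pos h1]
    unfold bq
    rw [mul_div_cancel₀ _ ha]
    rfl
  · rw [dif_neg h1]
    by_cases h2 : m = n + 1
    · subst h2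
      rw [dif_pos (by omega), if_pos rfl, mul_one]
      rfl
    · rw [dif_neg (by omega), if_neg h2, mul_zero]

/-- the domain -/
def U2 (n : ℕ) : Set (Fin (n + 2) → ℂ) :=
  {a | a (Fin.last (n + 1)) / u0 ∈ Complex.slitPlane ∧ bq a ∈ Un u0 n}

theorem lead_ne {a : Fin (n + 2) → ℂ} (ha : a ∈ U2 n) : a (Fin.last (n + 1)) ≠ 0 := by
  intro h0
  have h1 := Complex.slitPlane_ne_zero ha.1
  rw [h0, zero_div] at h1
  exact h1 rfl

theorem bq_diffAt {a : Fin (n + 2) → ℂ} (ha : a (Fin.last (n + 1)) ≠ 0) : DifferentiableAt ℂ bq a := by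
  refine differentiableAt_pi.2 fun k => ?_
  unfold bq
  have h1 : ∀ j : Fin (n + 2), DifferentiableAt ℂ (fun a : Fin (n + 2) → ℂ => a j) a := fun j =>
    (ContinuousLinearMap.proj (R := ℂ) (φ := fun _ : Fin (n + 2) => ℂ) j).differentiableAt
  simp only [div_eq_mul_inv]
  exact (h1 k.castSucc).mul ((h1 (Fin.last (n + 1))).fun_inv ha)

theorem U2_open (n : ℕ) : IsOpen (U2 n) := by
  have h1 : IsOpen {a : Fin (n + 2) → ℂ | a (Fin.last (n + 1)) / u0 ∈ Complex.slitPlane} :=
    Complex.isOpen_slitPlane.preimage (by fun_prop)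
  have h2 : ContinuousOn (bq (n := n)) {a : Fin (n + 2) → ℂ | a (Fin.last (n + 1)) / u0 ∈ Complex.slitPlane} := by
    intro a ha
    refine (bq_diffAt ?_).continuousAt.continuousWithinAt
    intro h0
    have h1 := Complex.slitPlane_ne_zero ha
    rw [h0, zero_div] at h1
    exact h1 rfl
  exact h2.isOpen_inter_preimage h1 (Un_open u0_ne n)

/-- the factor of the square root -/
noncomputable def scf (n : ℕ) (c : ℂ) : ℂ := w0 * (c / u0) ^ (1 / 2 : ℂ) * Complex.I ^ (n % 2)

theorem scf_ne {c : ℂ} (hc : c ≠ 0) : scf n c ≠ 0 := by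
  unfold scf
  refine mul_ne_zero (mul_ne_zero w0_ne ?_) (pow_ne_zero _ Complex.I_ne_zero)
  rw [Complex.cpow_def_of_ne_zero (div_ne_zero hc u0_ne)]
  exact Complex.exp_ne_zero _

theorem I_pow_sq (n : ℕ) : (Complex.I ^ (n % 2)) ^ 2 = (-1 : ℂ) ^ n := by
  rw [← pow_mul, mul_comm, pow_mul, Complex.I_sq]
  exact (neg_one_pow_eq_pow_mod_two n).symm

theorem scf_sq {c : ℂ} (hc : c ≠ 0) : scf n c ^ 2 = c * (-1) ^ n := by
  unfold scf
  rw [mul_pow, mul_pow, I_pow_sq, w0_sq, sq ((c / u0) ^ (1 / 2 : ℂ)), half_sq (div_ne_zero hc u0_ne)]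
  have h1 : (1 + Complex.I : ℂ) = u0 := rfl
  rw [h1, mul_div_cancel₀ _ u0_ne]

/-- the period matrix: loops, all forms `x ^ k dx / y` -/
noncomputable def PG (a : Fin (n + 2) → ℂ) : Matrix (Fin n) (Fin n) ℂ :=
  (scf n (a (Fin.last (n + 1))))⁻¹ • PE w0 (rt u0 (bq a))

/-- **the period matrix** in terms of the symplectic basis -/
noncomputable def PA (a : Fin (n + 2) → ℂ) : Matrix (Fin (mm n)) (Fin (mm n)) ℂ :=
  (PG a).submatrix cst id * cf n (fp a)

theorem PE_riemannG {u w : ℂ} (hw : w ^ 2 = u) (hw0 : w ≠ 0) {e : Fin (n + 1) → ℂ} (he : e ∈ Ord n) :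
    PE w e * qm n (rp fun r => u * e r) * (PE w e).transpose = ((-1) ^ n * tpi) • (bm ℚ n).map (algebraMap ℚ ℂ) := by
  have h1 := legendreGC he
  rw [Qg_eval] at h1
  have h2 : ∀ r s, (PE w e * qm n (rp fun r => u * e r) * (PE w e).transpose) r s =
      dl r * dl s * (FM e * qm n (rp e) * (FM e).transpose) r s := by
    intro r s
    simp only [Matrix.mul_apply, Matrix.transpose_apply, Finset.mul_sum, Finset.sum_mul, PE, Matrix.of_apply]
    refine Finset.sum_congr rfl fun i _ => Finset.sum_congr rfl fun j _ => ?_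
    rw [← qm_scale hw hw0 e j i]
    show dl r * (w ^ (2 * (j : ℤ) + 1 - n) * perC e r j) * qm n (rp fun r => u * e r) j i *
      (dl s * (w ^ (2 * (i : ℤ) + 1 - n) * perC e s i)) = dl r * dl s * (perC e r j *
        (w ^ (2 * (j : ℤ) + 1 - n) * qm n (rp fun r => u * e r) j i * w ^ (2 * (i : ℤ) + 1 - n)) * perC e s i)
    ring
  ext r s
  have h3 : (FM e * qm n (rp e) * (FM e).transpose) r s = (((-1) ^ n * Real.pi : ℂ) • jm ℂ n) r s :=
    congrFun (congrFun h1 r) s
  rw [h2, h3, bm_eq, Matrix.smul_apply, Matrix.smul_apply, Matrix.smul_apply, jm_apply, smul_eq_mul, smul_eq_mul,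
    smul_eq_mul]
  by_cases h : (r : ℕ) = s + 1 ∨ (s : ℕ) = r + 1
  · rw [if_pos h, dl_mul h]
    unfold tpi
    ring
  · rw [if_neg h, mul_zero, mul_zero, mul_zero, mul_zero]

theorem qm_C_mul (c : ℂ) (F : Polynomial ℂ) : qm n (Polynomial.C c * F) = c • qm n F := by
  ext i j
  rw [Matrix.smul_apply]
  unfold qm
  rw [Matrix.of_apply, Matrix.of_apply, Polynomial.coeff_C_mul, smul_eq_mul]
  ring

/-- the relations, all loops and all forms -/
theorem PG_riemann {a : Fin (n + 2) → ℂ} (ha : a ∈ U2 n) :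
    PG a * qm n (fp a) * (PG a).transpose = tpi • (bm ℚ n).map (algebraMap ℚ ℂ) := by
  have h0 := lead_ne ha
  have h1 := PE_riemannG w0_sq w0_ne (rt_mem ha.2)
  have h2 : (rp fun r => (1 + Complex.I) * rt u0 (bq a) r) = cp (bq a) := (rt_eq ha.2).symm
  rw [h2] at h1
  unfold PG
  rw [fp_eq h0, qm_C_mul, Matrix.transpose_smul, Matrix.smul_mul, Matrix.mul_smul, Matrix.smul_mul, Matrix.mul_smul,
    Matrix.smul_mul, h1, smul_smul, smul_smul, smul_smul]
  congr 1
  have h3 := scf_ne (n := n) h0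
  have h4 := scf_sq (n := n) h0
  field_simp
  rw [h4]

theorem PA_riemann {a : Fin (n + 2) → ℂ} (ha : a ∈ U2 n) :
    PA a * q0 ℂ n * (PA a).transpose = tpi • (bm ℚ (mm n)).map (algebraMap ℚ ℂ) := by
  have h1 := PG_riemann ha
  unfold PA
  rw [Matrix.transpose_mul]
  have h2 : (PG a).submatrix cst id * cf n (fp a) * q0 ℂ n * ((cf n (fp a)).transpose * ((PG a).submatrix cst id).transpose) =
      (PG a).submatrix cst id * (cf n (fp a) * q0 ℂ n * (cf n (fp a)).transpose) * ((PG a).submatrix cst id).transpose := by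
    simp only [Matrix.mul_assoc]
  rw [h2, cf_q0 (fp a) fun m hm => fp_big a hm]
  have h3 : (PG a).submatrix (cst (n := n)) id * qm n (fp a) * ((PG a).submatrix cst id).transpose =
      (PG a * qm n (fp a) * (PG a).transpose).submatrix cst cst := by
    ext r s
    simp only [Matrix.mul_apply, Matrix.submatrix_apply, Matrix.transpose_apply, id]
  rw [h3, h1]
  ext r s
  rfl

end Pool.Agent.N121.AH
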