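import Pool.Agent.N121.AH.Main

/-!
# The main theorem
-/

set_option autoImplicit false
set_option linter.unusedSectionVars false

open Complex Set Filter Topology NumberField Matrix MeasureTheory

namespace Pool.Agent.N121.AH

open Pool.Agent.Y890.MV
open Pool.Agent.Y890.SM
open Pool.Agent.Y124 (Cov)
open Pool.Agent.N121.OH (BX sc cx sd sd_pos sd_one sd2_one lt_sd' sd_le few_cov few_near)

variable {ι : Type} {n : ι → ℕ} [Fintype ι] [DecidableEq ι]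

/-- the number of hypersurfaces -/
theorem growth (C : ℝ) (hC : 0 ≤ C) (D : ℕ) {ε : ℝ} (hε : 0 < ε) : ∃ T₀ : ℕ, ∀ T : ℕ, T₀ ≤ T →
    (⌊C * Tp T ^ ((2 : ℝ)⁻¹)⌋₊ : ℝ) * ((D : ℝ) / T) ≤ ε := by
  refine ⟨max 1 ⌈(4 * C * D / ε) ^ 2⌉₊, fun T hT => ?_⟩
  have hT1 : 1 ≤ T := (le_max_left _ _).trans hT
  have hT0 : (0 : ℝ) < T := by exact_mod_cast hT1
  have hT2 : (4 * C * D / ε) ^ 2 ≤ T := (Nat.le_ceil _).trans (by exact_mod_cast (le_max_right _ _).trans hT)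
  have hS0 : (0 : ℝ) < sd T := by exact_mod_cast sd_pos T
  have hS1 : (sd T : ℝ) ^ 2 ≤ 4 * T := by exact_mod_cast sd_le hT1
  have hpow : Tp T ^ ((2 : ℝ)⁻¹) = sd T := by
    unfold Tp
    rw [← Real.rpow_natCast, ← Real.rpow_mul hS0.le]
    norm_num
  rw [hpow]
  have h1 : (⌊C * (sd T : ℝ)⌋₊ : ℝ) ≤ C * sd T := Nat.floor_le (by positivity)
  have h2 : 4 * C * D / ε ≤ sd T := by
    have h3 : (4 * C * D / ε) ^ 2 ≤ (sd T : ℝ) ^ 2 := hT2.trans (lt_sd' T).le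
    exact (sq_le_sq₀ (by positivity) hS0.le).1 h3
  rw [div_le_iff₀ hε] at h2
  calc (⌊C * (sd T : ℝ)⌋₊ : ℝ) * ((D : ℝ) / T) ≤ (C * sd T) * (D / T) := mul_le_mul_of_nonneg_right h1 (by positivity)
    _ = (C * D * sd T) / T := by ring
    _ ≤ ε := by
      rw [div_le_iff₀ hT0]
      nlinarith [mul_le_mul_of_nonneg_right h2 hS0.le, mul_le_mul_of_nonneg_left hS1 hε.le]

/-- the theorem for fixed parameters -/
theorem step [Nonempty ι] (k : ℕ) {ε : ℝ} (hε : 0 < ε) : ∃ T₀ : ℕ, ∀ T : ℕ, T₀ ≤ T →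
    ∀ ξ : Fin k → ℂ, ∃ E ⊆ BX (wt n) T, (E.card : ℝ) ≤ ε * (BX (wt n) T).card ∧
      ∀ a ∈ BX (wt n) T, a ∉ E → GoodA n k ((T : ℝ) ^ k) ξ a := by
  classical
  obtain ⟨i0⟩ := ‹Nonempty ι›
  have : Nonempty ι := ⟨i0⟩
  have : Nonempty (Σ i, Fin (n i + 2)) := ⟨⟨i0, 0⟩⟩
  set F := ahF n with hF
  have hUF : F.U = USig (fun i => U2 (n i)) := rfl
  -- points near the boundary
  obtain ⟨m, hm0, hm⟩ := few_near (U := F.U) F.isOpen (by rw [hUF]; exact null_U n) (w := wt n) wt_pos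
    (ε := ε / 3) (by positivity)
  set Lc := InnerM F.U m with hLc
  have hLc1 : IsCompact Lc := innerM_compact _ _
  have hLc2 : Lc ⊆ F.U := innerM_sub _ hm0
  have hf : ∀ q, AnalyticOnNhd ℂ (F.f q) F.U := fun q => F.an q.1 q.2.1 q.2.2
  have hη : 0 < ((2 : ℝ)⁻¹) := by positivity
  obtain ⟨D1, C1, T1, hC1, -, H1⟩ := excT_cov F.conn F.isOpen F.nonempty hf F.tor Lc hLc1 hLc2 k (Fin k) 1
    ((exL n k + k : ℕ) : ℝ) _ hη
  obtain ⟨D2, C2, T2, hC2, -, H2⟩ := excT_cov F.conn F.isOpen F.nonempty hf F.tor Lc hLc1 hLc2 (k * k)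
    (Fin (k * k + 1)) 1 ((exL n (k * k) + (k * k + 1) : ℕ) : ℝ) _ hη
  obtain ⟨T3, h3⟩ := growth C1 hC1 D1 (ε := ε / 3) (by positivity)
  obtain ⟨T4, h4⟩ := growth C2 hC2 D2 (ε := ε / 3) (by positivity)
  obtain ⟨T5, h5⟩ := good_of (n := n) k
  refine ⟨max 1 (max m (max ⌈T1⌉₊ (max ⌈T2⌉₊ (max T3 (max T4 T5))))), fun T hT ξ => ?_⟩
  simp only [max_le_iff] at hT
  obtain ⟨hT1, hTm, hT2, hT3, hT4, hT5, hT6⟩ := hT
  have hTT : (T : ℝ) ≤ Tp T := (lt_sd' T).le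
  have hc1 := H1 ℚ (by simp) (algebraMap ℚ ℂ) ξ (Tp T)
    (((Nat.le_ceil T1).trans (by exact_mod_cast hT2)).trans hTT)
  have hc2 := H2 ℚ (by simp) (algebraMap ℚ ℂ) (fun a : Fin (k * k + 1) => tpi ^ (a : ℕ)) (Tp T)
    (((Nat.le_ceil T2).trans (by exact_mod_cast hT3)).trans hTT)
  set E1 := (BX (wt n) T).filter fun a => cx (sc (wt n) T a) ∈
    ((fun (s : (Σ i, Fin (n i + 2)) → ℚ) j => (algebraMap ℚ ℂ) (s j)) '' ExcT k F.f F.Tor Lc ℚ (algebraMap ℚ ℂ) ξ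
      ((exL n k + k : ℕ) : ℝ) (Tp T)) with hE1
  set E2 := (BX (wt n) T).filter fun a => cx (sc (wt n) T a) ∈
    ((fun (s : (Σ i, Fin (n i + 2)) → ℚ) j => (algebraMap ℚ ℂ) (s j)) '' ExcT (k * k) F.f F.Tor Lc ℚ (algebraMap ℚ ℂ)
      (fun a : Fin (k * k + 1) => tpi ^ (a : ℕ)) ((exL n (k * k) + (k * k + 1) : ℕ) : ℝ) (Tp T)) with hE2
  set E0 := (BX (wt n) T).filter fun a => cx (sc (wt n) T a) ∉ Lc with hE0
  have hb0 : (E0.card : ℝ) ≤ ε / 3 * (BX (wt n) T).card :=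
    hm T hTm E0 (Finset.filter_subset _ _) (fun a ha => (Finset.mem_filter.1 ha).2)
  have hb1 : (E1.card : ℝ) ≤ ε / 3 * (BX (wt n) T).card :=
    (few_cov (wt n) wt_pos hc1 hT1).trans (mul_le_mul_of_nonneg_right (h3 T hT4) (Nat.cast_nonneg _))
  have hb2 : (E2.card : ℝ) ≤ ε / 3 * (BX (wt n) T).card :=
    (few_cov (wt n) wt_pos hc2 hT1).trans (mul_le_mul_of_nonneg_right (h4 T hT5) (Nat.cast_nonneg _))
  refine ⟨E0 ∪ (E1 ∪ E2), ?_, ?_, ?_⟩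
  · exact Finset.union_subset (Finset.filter_subset _ _)
      (Finset.union_subset (Finset.filter_subset _ _) (Finset.filter_subset _ _))
  · have h6 : ((E0 ∪ (E1 ∪ E2)).card : ℝ) ≤ E0.card + (E1.card + E2.card) := by
      exact_mod_cast (Finset.card_union_le _ _).trans (Nat.add_le_add_left (Finset.card_union_le _ _) _)
    calc ((E0 ∪ (E1 ∪ E2)).card : ℝ) ≤ E0.card + (E1.card + E2.card) := h6
      _ ≤ ε / 3 * (BX (wt n) T).card + (ε / 3 * (BX (wt n) T).card + ε / 3 * (BX (wt n) T).card) := by gcongr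
      _ = ε * (BX (wt n) T).card := by ring
  · intro a ha hnot
    rw [Finset.mem_union, Finset.mem_union, not_or, not_or] at hnot
    obtain ⟨hn0, hn1, hn2⟩ := hnot
    have haL : cx (sc (wt n) T a) ∈ Lc := by
      by_contra hcon
      exact hn0 (Finset.mem_filter.2 ⟨ha, hcon⟩)
    refine h5 T hT6 ξ Lc hLc2 a ha haL ?_ ?_
    · intro hcon
      exact hn1 (Finset.mem_filter.2 ⟨ha, ⟨_, hcon, xq_cx n T a⟩⟩)
    · intro hcon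
      exact hn2 (Finset.mem_filter.2 ⟨ha, ⟨_, hcon, xq_cx n T a⟩⟩)

/-- **Main theorem.** -/
theorem main [Nonempty ι] (n : ι → ℕ) : ∃ ω : ℕ → ℕ, Tendsto ω atTop atTop ∧ ∀ ε : ℝ, 0 < ε →
    ∃ T₀ : ℕ, ∀ T : ℕ, T₀ ≤ T → ∀ ξ : Fin (ω T) → ℂ, ∃ E ⊆ BX (wt n) T,
      (E.card : ℝ) ≤ ε * (BX (wt n) T).card ∧
      ∀ a ∈ BX (wt n) T, a ∉ E → GoodA n (ω T) ((T : ℝ) ^ ω T) ξ a := by
  classical
  obtain ⟨ω, T₀, hω, -, H⟩ := Pool.Agent.Y890.SP.exists_omega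
    (fun k (T : ℝ) => ∀ ξ : Fin k → ℂ, ∃ E ⊆ BX (wt n) ⌊T⌋₊,
      (E.card : ℝ) ≤ ((k : ℝ) + 1)⁻¹ * (BX (wt n) ⌊T⌋₊).card ∧
      ∀ a ∈ BX (wt n) ⌊T⌋₊, a ∉ E → GoodA n k ((⌊T⌋₊ : ℝ) ^ k) ξ a) (fun k => by
    obtain ⟨T₀, hT₀⟩ := step (n := n) (k + 1) (ε := (((k + 1 : ℕ) : ℝ) + 1)⁻¹) (by positivity)
    refine ⟨T₀, fun T hT => ?_⟩
    exact hT₀ ⌊T⌋₊ (Nat.le_floor hT))
  refine ⟨fun T => ω (T : ℝ), hω.comp tendsto_natCast_atTop_atTop, fun ε hε => ?_⟩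
  obtain ⟨k, hk⟩ := exists_nat_gt ε⁻¹
  have h1 : ∀ᶠ T : ℕ in atTop, k ≤ ω (T : ℝ) := (hω.comp tendsto_natCast_atTop_atTop).eventually_ge_atTop k
  obtain ⟨T₁, hT₁⟩ := eventually_atTop.1 h1
  refine ⟨max T₁ ⌈T₀⌉₊, fun T hT ξ => ?_⟩
  have hT1 : T₁ ≤ T := (le_max_left _ _).trans hT
  have hT0 : T₀ ≤ (T : ℝ) := (Nat.le_ceil T₀).trans (by exact_mod_cast (le_max_right _ _).trans hT)
  obtain ⟨-, h2⟩ := H (T : ℝ) hT0
  obtain ⟨E, hE1, hE2, hE3⟩ := h2 ξ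
  rw [Nat.floor_natCast] at hE1 hE2 hE3
  refine ⟨E, hE1, hE2.trans (mul_le_mul_of_nonneg_right ?_ (Nat.cast_nonneg _)), hE3⟩
  have h3 : (k : ℝ) ≤ ω (T : ℝ) := by exact_mod_cast hT₁ T hT1
  rw [inv_le_comm₀ (by positivity) hε]
  linarith

end Pool.Agent.N121.AH
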