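import Pool.Agent.Y890.HE.TorHM
import Pool.Agent.Y118.HP.Alg1

/-!
# The Riemann-Legendre relations and the transvections, for any number of branch points
-/

set_option autoImplicit false
set_option linter.unusedSectionVars false

open Complex Set Filter Topology Matrix Polynomial

namespace Pool.Agent.N121.AH

open Pool.Agent.Y118.HP
open Pool.Agent.Y890.MV (evX evM_eq TorM evM_an)
open Pool.Agent.Y890.HE

variable {n : ℕ}

/-- the Riemann-Legendre relations, any parity -/
theorem legendreG (e : Fin (n + 1) → ℝ) (he : StrictMono e) :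
    perM e * qm n (∏ i, (X - C (e i))) * (perM e).transpose = ((-1) ^ n * Real.pi) • jm ℝ n := by
  have hent : ∀ r s : Fin n, (perM e * qm n (∏ i, (X - C (e i))) * (perM e).transpose : Matrix (Fin n) (Fin n) ℝ) r s =
      ∑ i : Fin n, ∑ j : Fin n, perT e r (i : ℕ) * qm n (FF e) i j * perT e s (j : ℕ) := by
    intro r s
    rw [Matrix.mul_apply]
    simp only [Matrix.mul_apply, Finset.sum_mul, Matrix.transpose_apply]
    rw [Finset.sum_comm]
    refine Finset.sum_congr rfl fun i _ => Finset.sum_congr rfl fun j _ => ?_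
    simp only [perM, Matrix.of_apply]
    rw [per_eq_perT he, per_eq_perT he]
    rfl
  have hsk : ∀ r s : Fin n, ∑ i : Fin n, ∑ j : Fin n, perT e r (i : ℕ) * qm n (FF e) i j * perT e s (j : ℕ) =
      -∑ i : Fin n, ∑ j : Fin n, perT e s (i : ℕ) * qm n (FF e) i j * perT e r (j : ℕ) := by
    intro r s
    rw [Finset.sum_comm, ← Finset.sum_neg_distrib]
    refine Finset.sum_congr rfl fun i _ => ?_
    rw [← Finset.sum_neg_distrib]
    refine Finset.sum_congr rfl fun j _ => ?_
    have : qm n (FF e) j i = -qm n (FF e) i j := by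
      unfold qm
      simp only [Matrix.of_apply]
      rw [show (j : ℕ) + (i : ℕ) + 2 = (i : ℕ) + (j : ℕ) + 2 by omega]
      ring
    rw [this]
    ring
  have hsign : ∀ m : Fin n, ((-1 : ℝ)) ^ (n - (m : ℕ)) = (-1) ^ n * (-1) ^ (m : ℕ) := by
    intro m
    have h1 : ((-1 : ℝ)) ^ (n - (m : ℕ)) * (-1) ^ (m : ℕ) = (-1) ^ n := by
      rw [← pow_add, Nat.sub_add_cancel m.2.le]
    have h2 := sigma_sq (m : ℕ)
    calc ((-1 : ℝ)) ^ (n - (m : ℕ)) = (-1) ^ (n - (m : ℕ)) * ((-1) ^ (m : ℕ) * (-1) ^ (m : ℕ)) := by rw [h2, mul_one]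
      _ = (-1) ^ n * (-1) ^ (m : ℕ) := by rw [← mul_assoc, h1]
  have hgt : ∀ r s : Fin n, s < r → (perM e * qm n (∏ i, (X - C (e i))) * (perM e).transpose : Matrix (Fin n) (Fin n) ℝ) r s =
      (((-1) ^ n * Real.pi) • jm ℝ n) r s := by
    intro r s hsr
    rw [hent, leg_lt he hsr, Matrix.smul_apply, jm_apply, hsign]
    have hlt : (s : ℕ) < r := hsr
    by_cases h : (r : ℕ) = s + 1
    · rw [if_pos h, if_pos (Or.inl h), smul_eq_mul]; ring
    · rw [if_neg h, if_neg (by omega), smul_zero]
  ext r s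
  rcases lt_trichotomy r s with h | h | h
  · have h1 := hgt s r h
    rw [hent, Matrix.smul_apply, jm_symm] at h1
    rw [hent, hsk, h1, Matrix.smul_apply]
    simp
  · subst h
    rw [hent, Matrix.smul_apply, jm_diag, smul_zero]
    have := hsk r r
    linarith
  · exact hgt r s h

/-- the relations for all configurations -/
theorem legendreGC {e : Fin (n + 1) → ℂ} (he : e ∈ Ord n) :
    FM e * (Qg n).map (MvPolynomial.eval e) * (FM e).transpose = ((-1) ^ n * Real.pi : ℂ) • jm ℂ n := by
  ext r s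
  obtain ⟨e0, he0⟩ : ∃ e0 : Fin (n + 1) → ℝ, (fun i => (e0 i : ℂ)) ∈ Ord n :=
    ⟨fun i => (i : ℝ), Ord_real (fun i k h => by
      show ((i : ℕ) : ℝ) < ((k : ℕ) : ℝ)
      exact_mod_cast h)⟩
  have h1 := real_zero (Ord_open n) (Ord_convex n).isPreconnected he0
    (F := fun e => (FM e * (Qg n).map (MvPolynomial.eval e) * (FM e).transpose) r s -
      (((-1) ^ n * Real.pi : ℂ) • jm ℂ n) r s)
    (by
      intro e he
      refine AnalyticAt.sub ?_ analyticAt_const
      simp only [Matrix.mul_apply, Matrix.transpose_apply, Matrix.map_apply]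
      refine Finset.analyticAt_fun_sum _ fun k _ => ?_
      refine AnalyticAt.mul ?_ (fH_an (s, k) e he)
      refine Finset.analyticAt_fun_sum _ fun i _ => ?_
      exact (fH_an (r, i) e he).mul (ev_an _ e he))
    (by
      intro x hx
      have hx' := strictMono_of_mem hx
      have h2 := legendreG x hx'
      have h3 := congrArg (fun M => M.map (algebraMap ℝ ℂ)) h2
      simp only [Matrix.map_mul, Matrix.transpose_map] at h3
      have h4 : (qm n (∏ i : Fin (n + 1), (Polynomial.X - Polynomial.C (x i)))).map (algebraMap ℝ ℂ) =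
          (Qg n).map (MvPolynomial.eval fun i => (x i : ℂ)) := by
        rw [Qg_eval]
        ext i j
        rw [Matrix.map_apply]
        unfold qm
        rw [Matrix.of_apply, Matrix.of_apply]
        have h5 : (∏ i : Fin (n + 1), (Polynomial.X - Polynomial.C ((x i : ℝ) : ℂ))) =
            (∏ i : Fin (n + 1), (Polynomial.X - Polynomial.C (x i))).map (algebraMap ℝ ℂ) := by
          rw [Polynomial.map_prod]
          refine Finset.prod_congr rfl fun i _ => ?_
          rw [Polynomial.map_sub, Polynomial.map_X, Polynomial.map_C]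
          rfl
        rw [h5, Polynomial.coeff_map]
        simp
      have h6 : (((-1) ^ n * Real.pi) • jm ℝ n).map (algebraMap ℝ ℂ) = ((-1) ^ n * Real.pi : ℂ) • jm ℂ n := by
        rw [← jm_mapC]
        ext i j
        simp [Matrix.smul_apply, Matrix.map_apply]
      rw [h4, h6] at h3
      show (FM (fun i => (x i : ℂ)) * (Qg n).map (MvPolynomial.eval fun i => (x i : ℂ)) *
        (FM fun i => (x i : ℂ)).transpose) r s - _ = 0
      rw [FM_real hx', h3, sub_self])
  exact sub_eq_zero.1 (h1 e he)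

/-- a relation between the periods on an interval is invariant under transvections -/
theorem func_TV {a : Fin n → ℝ} (ha : StrictMono a) (m : Fin (n + 1))
    (P : MvPolynomial (Option (Fin n × Fin n)) ℂ) {α β : ℝ} (hαβ : α < β) (hgap : ∀ t ∈ Icc α β, InGap a m t)
    (hP : ∀ t ∈ Icc α β, ev P (t : ℂ) (PM a m t) = 0) (v : Fin n → ℂ) (s : ℂ) :
    ∀ z ∈ Dm a m, ev P z (TV v s * PM a m z) = 0 := by
  have hId : P ∈ Id a m := eq_zero_of_real ha m (differentiableOn_ev ha m P) hαβ hgap hP
  have hM := all_mem ha m v s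
  intro z hz
  have := hM P hId z hz
  rwa [ev_sb] at this

/-- relations are invariant under the transvections -/
theorem inv_TV (p : MvPolynomial (Fin n × Fin n) (MvPolynomial (Fin (n + 1)) ℂ))
    (hp : ∀ e ∈ Ord n, evX e (fun q => FM e q.1 q.2) p = 0) (v : Fin n → ℂ) (s : ℂ) :
    ∀ e ∈ Ord n, evX e (fun q => (TV v s * FM e) q.1 q.2) p = 0 := by
  obtain ⟨e0, he0⟩ : ∃ e0 : Fin (n + 1) → ℝ, (fun i => (e0 i : ℂ)) ∈ Ord n :=
    ⟨fun i => (i : ℝ), Ord_real (fun i k h => by
      show ((i : ℕ) : ℝ) < ((k : ℕ) : ℝ)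
      exact_mod_cast h)⟩
  refine real_zero (Ord_open n) (Ord_convex n).isPreconnected he0 ?_ ?_
  · have h1 : (fun e : Fin (n + 1) → ℂ => evX e (fun q => (TV v s * FM e) q.1 q.2) p) =
        fun e => Y890.MV.evM (fun q e => (TV v s * FM e) q.1 q.2) e p := rfl
    rw [h1]
    refine evM_an (fun q => ?_) p
    intro e he
    simp only [Matrix.mul_apply]
    refine Finset.analyticAt_fun_sum _ fun k _ => ?_
    exact analyticAt_const.mul (fH_an (k, q.2) e he)
  · intro x hx
    have hx' := strictMono_of_mem hx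
    have ha : StrictMono (fun i : Fin n => x i.succ) := fun i k h => hx' (Fin.succ_lt_succ_iff.2 h)
    have hgap : ∀ t ∈ Set.Icc (x 0 - 1) (x 0), InGap (fun i : Fin n => x i.succ) 0 t := by
      intro t ht i
      refine ⟨fun h => absurd h (Fin.not_lt_zero _), fun _ => ?_⟩
      exact lt_of_le_of_lt ht.2 (hx' (Fin.succ_pos i))
    have hin : ∀ t ∈ Set.Icc (x 0 - 1) (x 0),
        (Fin.cons (t : ℂ) fun i : Fin n => ((x i.succ : ℝ) : ℂ) : Fin (n + 1) → ℂ) ∈ Ord n := by
      intro t ht
      have h2 := Ord_real (er_strictMono ha (hgap t ht))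
      have h3 := ee_ofReal (fun i : Fin n => x i.succ) 0 t
      rw [ee_zero] at h3
      rw [← h3] at h2
      exact h2
    have key := func_TV ha 0 (spe (fun i : Fin n => ((x i.succ : ℝ) : ℂ)) p) (show x 0 - 1 < x 0 by linarith)
      hgap (by
        intro t ht
        rw [PM_zero]
        unfold FM
        rw [spe_ev]
        exact hp _ (hin t ht)) v s (x 0 : ℂ) (hgap (x 0) ⟨by linarith, le_rfl⟩).mem_Dm
    have h4 : (fun i => (x i : ℂ)) = (Fin.cons (x 0 : ℂ) fun i : Fin n => ((x i.succ : ℝ) : ℂ)) := by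
      funext i
      refine Fin.cases ?_ (fun i => ?_) i
      · simp
      · simp
    rw [PM_zero] at key
    rw [h4]
    have h5 : TV v s * FM (Fin.cons (x 0 : ℂ) fun i : Fin n => ((x i.succ : ℝ) : ℂ)) =
        mt (fun q => (TV v s * FM (Fin.cons (x 0 : ℂ) fun i : Fin n => ((x i.succ : ℝ) : ℂ))) q.1 q.2) := rfl
    rw [h5, spe_ev] at key
    exact key

end Pool.Agent.N121.AH
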