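import Pool.Agent.N121.AH.Fam
import Pool.Agent.N121.OH.Null
import Pool.Agent.H450R2.Sp.Null
import Pool.Agent.N121.OH.Count

/-!
# The real polynomials outside the domain
-/

set_option autoImplicit false
set_option linter.unusedSectionVars false

open Filter Matrix Topology MeasureTheory

namespace Pool.Agent.N121.AH

open Pool.Agent.Y890.MV
open Pool.Agent.N121.OH

theorem real_slit {c : ℝ} (hc : c ≠ 0) : (c : ℂ) / u0 ∈ Complex.slitPlane := by
  rw [Complex.mem_slitPlane_iff]
  right
  have h1 : ((c : ℂ) / u0).im = -c / 2 := by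
    unfold u0
    rw [Complex.div_im]
    simp [Complex.normSq_apply]
    ring
  rw [h1]
  intro h0
  apply hc
  linarith

theorem exists_H2 (n : ℕ) : ∃ H : MvPolynomial (Fin (n + 2)) ℂ, H ≠ 0 ∧
    ∀ a : Fin (n + 2) → ℝ, (fun m => (a m : ℂ)) ∉ U2 n → MvPolynomial.eval (fun m => (a m : ℂ)) H = 0 := by
  obtain ⟨H, hH0, hH⟩ := exists_H n (u := u0) (by simp [u0]) (by simp [u0])
  set p : MvPolynomial (Fin (n + 1)) (MvPolynomial (Fin (n + 2)) ℂ) := MvPolynomial.map MvPolynomial.C H with hp
  set c : MvPolynomial (Fin (n + 2)) ℂ := MvPolynomial.X (Fin.last (n + 1)) with hc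
  set v : Fin (n + 1) → MvPolynomial (Fin (n + 2)) ℂ := fun k => MvPolynomial.X k.castSucc with hv
  have hev : ∀ a : Fin (n + 2) → ℂ, a (Fin.last (n + 1)) ≠ 0 →
      MvPolynomial.eval a (clear p.totalDegree v c p) = a (Fin.last (n + 1)) ^ p.totalDegree *
        MvPolynomial.eval (bq a) H := by
    intro a ha
    rw [clear_eval _ _ _ _ le_rfl _ (by rw [hc, MvPolynomial.eval_X]; exact ha), hc, MvPolynomial.eval_X]
    congr 1
    rw [evX, hp, MvPolynomial.eval₂_map]
    have h1 : (MvPolynomial.eval a).comp MvPolynomial.C = RingHom.id ℂ := by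
      ext x
      simp
    rw [h1]
    show MvPolynomial.eval₂ (RingHom.id ℂ) _ H = MvPolynomial.eval₂ (RingHom.id ℂ) (bq a) H
    congr 1
    funext k
    simp only [hv, MvPolynomial.eval_X]
    rfl
  refine ⟨c * clear p.totalDegree v c p, ?_, ?_⟩
  · intro h0
    obtain ⟨b, hb⟩ : ∃ b, MvPolynomial.eval b H ≠ 0 := by
      by_contra hcon
      push Not at hcon
      exact hH0 (MvPolynomial.funext fun b => by rw [hcon b, map_zero])
    have h1 := congrArg (MvPolynomial.eval (Fin.snoc b 1 : Fin (n + 2) → ℂ)) h0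
    have h2 : (Fin.snoc b 1 : Fin (n + 2) → ℂ) (Fin.last (n + 1)) = 1 := by simp
    rw [map_mul, map_zero, hev _ (by rw [h2]; exact one_ne_zero), h2, one_pow, one_mul, hc, MvPolynomial.eval_X, h2,
      one_mul] at h1
    apply hb
    rw [← h1]
    congr 1
    congr 1
    funext k
    unfold bq
    rw [h2, div_one]
    simp
  · intro a ha
    rw [map_mul, hc, MvPolynomial.eval_X]
    by_cases h0 : a (Fin.last (n + 1)) = 0
    · rw [h0]
      simp
    · have h1 : ((a (Fin.last (n + 1)) : ℝ) : ℂ) ≠ 0 := by exact_mod_cast h0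
      have h2 := hev (fun m => (a m : ℂ)) h1
      rw [hc] at h2
      rw [h2]
      have h3 : bq (fun m => ((a m : ℝ) : ℂ)) = fun k : Fin (n + 1) =>
          ((a k.castSucc / a (Fin.last (n + 1)) : ℝ) : ℂ) := by
        funext k
        unfold bq
        push_cast
        rfl
      have h4 : (fun k : Fin (n + 1) => ((a k.castSucc / a (Fin.last (n + 1)) : ℝ) : ℂ)) ∉ Un u0 n := by
        rw [← h3]
        intro h5
        exact ha ⟨real_slit h0, h5⟩
      rw [h3, hH _ h4, mul_zero, mul_zero]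

variable {ι : Type} {n : ι → ℕ} [Fintype ι] [DecidableEq ι]

theorem null_U (n : ι → ℕ) :
    volume {x : (Σ i, Fin (n i + 2)) → ℝ | cx x ∉ USig (fun i => U2 (n i))} = 0 := by
  choose H hH0 hH using fun i => exists_H2 (n i)
  have hsub : {x : (Σ i, Fin (n i + 2)) → ℝ | cx x ∉ USig (fun i => U2 (n i))} ⊆
      ⋃ i, {x | MvPolynomial.eval (fun q => (x q : ℂ)) (MvPolynomial.rename (Sigma.mk i) (H i)) = 0} := by
    intro x hx
    simp only [Set.mem_ofPred_eq, USig, not_forall] at hx
    obtain ⟨i, hi⟩ := hx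
    refine Set.mem_iUnion.2 ⟨i, ?_⟩
    show MvPolynomial.eval (fun q => (x q : ℂ)) (MvPolynomial.rename (Sigma.mk i) (H i)) = 0
    rw [MvPolynomial.eval_rename]
    exact hH i (fun m => x ⟨i, m⟩) hi
  refine measure_mono_null hsub ?_
  rw [measure_iUnion_null_iff]
  intro i
  refine H450Sp.poly_null _ ?_
  exact (map_ne_zero_iff _ (MvPolynomial.rename_injective _ sigma_mk_injective)).2 (hH0 i)

end Pool.Agent.N121.AH
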