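import Pool.Agent.N121.AH.Arr
import Pool.Agent.N121.AH.Null
import Pool.Agent.N121.OH.Main

/-!
# Relations between the periods of almost all tuples of hyperelliptic curves, ordered by height
-/

set_option autoImplicit false
set_option linter.unusedSectionVars false

open Complex Set Filter Topology NumberField Matrix MeasureTheory

namespace Pool.Agent.N121.AH

open Pool.Agent.Y118.HP (jm jm_apply jm_det jm_transpose jm_diag jm_map qm bm bm_eq aeval_int_map)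
open Pool.Agent.Y890.MV
open Pool.Agent.Y890.SM
open Pool.Agent.Y124 (Cov)
open Pool.Agent.N121.OH (arv ptS TorS BX sc cx sd sd_pos sd_one sd2_one lt_sd' house_int mem_BX arv_rel arv_abs
  exists_M descent fsl osl)

variable {ι : Type} {n : ι → ℕ}

theorem torG_iff {p : (∀ i, Matrix (Fin (mi n i)) (Fin (mi n i)) ℂ) × ℂ} :
    p ∈ TorG n ↔ p ∈ TorS (fun i => (-1 / 2 : ℂ) • q0 ℂ (n i)) := by
  unfold TorG TorS
  simp only [Set.mem_ofPred_eq]
  refine and_congr_right fun _ => forall_congr' fun i => ?_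
  rw [Matrix.mul_smul, Matrix.smul_mul, bm_eq]
  constructor
  · intro h
    rw [h, smul_smul, smul_smul]
    congr 1
    ring
  · intro h
    calc p.1 i * q0 ℂ (n i) * (p.1 i).transpose =
        (-2 : ℂ) • ((-1 / 2 : ℂ) • (p.1 i * q0 ℂ (n i) * (p.1 i).transpose)) := by
          rw [smul_smul]; norm_num
      _ = p.2 • (-2 : ℂ) • jm ℂ (mi n i) := by rw [h, smul_comm]

theorem PM_mem {s : ℝ} (hs : 0 < s) {x : (Σ i, Fin (n i + 2)) → ℂ} (hx : x ∈ UU n) :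
    (PM n (scp n s x) (fun i => er (pj (scp n s x) i)), tpi) ∈ TorG n := by
  rw [rs_PM hs hx, rs_tor hs]
  exact ⟨tpi_ne, fun i => PA_riemann (hx i)⟩

/-- rational trivialisation -/
theorem exists_X0 (m : ℕ) : ∃ X0 : Matrix (Fin (mm m)) (Fin (mm m)) ℚ,
    X0.map (algebraMap ℚ ℂ) * ((-1 / 2 : ℂ) • q0 ℂ m) * (X0.map (algebraMap ℚ ℂ)).transpose = jm ℂ (mm m) := by
  set Q : Matrix (Fin (mm m)) (Fin (mm m)) ℚ := (-1 / 2 : ℚ) • q0 ℚ m with hQ
  have hQm : Q.map (algebraMap ℚ ℂ) = (-1 / 2 : ℂ) • q0 ℂ m := by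
    rw [← q0_map (algebraMap ℚ ℂ)]
    ext i j
    rw [Matrix.map_apply, hQ, Matrix.smul_apply, Matrix.smul_apply, Matrix.map_apply]
    simp
  have hQT : Q.transpose = -Q := by
    rw [hQ, Matrix.transpose_smul, q0_transpose, smul_neg]
  have hQd : ∀ i, Q i i = 0 := by
    intro i
    have h1 := congrFun (congrFun hQT i) i
    rw [Matrix.transpose_apply, Matrix.neg_apply] at h1
    linarith
  have hdet : Q.det ≠ 0 := by
    rw [hQ, Matrix.det_smul]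
    exact mul_ne_zero (pow_ne_zero _ (by norm_num)) q0_det
  obtain ⟨U, -, hU⟩ := Pool.Agent.Y122.HPDar.darboux Q (jm ℚ (mm m)) hQT hQd hdet
    jm_transpose (fun i => jm_diag i) (jm_det (mm_even m))
  refine ⟨U, ?_⟩
  rw [← hQm, ← Matrix.transpose_map, ← Matrix.map_mul, ← Matrix.map_mul, hU, jm_map]

/-- the weights -/
def wt (n : ι → ℕ) (_q : Σ i, Fin (n i + 2)) : ℕ := 1

theorem wt_pos (q : Σ i, Fin (n i + 2)) : 1 ≤ wt n q := le_rfl

/-- the scaled rational point -/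
def xq (n : ι → ℕ) (T : ℕ) (a : (Σ i, Fin (n i + 2)) → ℤ) (q : Σ i, Fin (n i + 2)) : ℚ :=
  (a q : ℚ) / (sd T : ℚ) ^ 2

theorem xq_cx (n : ι → ℕ) (T : ℕ) (a : (Σ i, Fin (n i + 2)) → ℤ) :
    (fun q => (algebraMap ℚ ℂ) (xq n T a q)) = cx (sc (wt n) T a) := by
  funext q
  unfold xq cx sc wt
  simp

/-- the bound for the heights -/
noncomputable def Tp (T : ℕ) : ℝ := (sd T : ℝ) ^ 2

variable [Fintype ι] [DecidableEq ι]

theorem xq_ht {T : ℕ} {a : (Σ i, Fin (n i + 2)) → ℤ} (ha : a ∈ BX (wt n) T) (q : Σ i, Fin (n i + 2)) :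
    Y120.HtLe ℚ (Tp T) (xq n T a q) := by
  have h1 : |(a q : ℝ)| ≤ (T : ℝ) ^ 1 := by exact_mod_cast mem_BX.1 ha q
  rw [pow_one] at h1
  refine ⟨((a q : ℤ) : 𝓞 ℚ), ((((sd T : ℤ) ^ 2 : ℤ)) : 𝓞 ℚ), ?_, ?_, ?_, ?_⟩
  · have h4 : ((sd T : ℤ) ^ 2 : ℤ) ≠ 0 := by
      have h5 := sd_pos T
      positivity
    exact_mod_cast h4
  · exact house_int _ (h1.trans (lt_sd' T).le)
  · refine house_int _ ?_
    rw [abs_of_nonneg (by positivity)]
    push_cast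
    exact le_rfl
  · unfold xq
    simp

/-- the relations at a tuple of curves -/
def GoodA (n : ι → ℕ) (k : ℕ) (H : ℝ) (ξ : Fin k → ℂ) (a : (Σ i, Fin (n i + 2)) → ℤ) : Prop :=
  ∃ e : ∀ i, Fin (n i + 1) → ℂ,
    (∀ i, a ⟨i, Fin.last (n i + 1)⟩ ≠ 0 ∧
      fp (fun m => ((a ⟨i, m⟩ : ℤ) : ℂ)) = Polynomial.C ((a ⟨i, Fin.last (n i + 1)⟩ : ℤ) : ℂ) * OH.rp (e i) ∧
      ∀ r s, r < s → (e i r).re + (e i r).im < (e i s).re + (e i s).im) ∧
    (PM n (fun q => ((a q : ℤ) : ℂ)) e, tpi) ∈ TorG n ∧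
    (∀ (K : Type) [Field K] [NumberField K] (φ : K →+* ℂ) (P : MvPolynomial (Option (Ix (mi n))) (𝓞 K)),
      Module.finrank ℚ K ≤ k → P.totalDegree ≤ k →
      (∀ s (ψ : K →+* ℂ), ‖ψ (algebraMap (𝓞 K) K (P.coeff s))‖ ≤ H) →
      MvPolynomial.eval (ptS (PM n (fun q => ((a q : ℤ) : ℂ)) e) tpi) (P.map (φ.comp (algebraMap (𝓞 K) K))) = 0 →
      ∀ x ∈ TorG n, MvPolynomial.eval (ptS x.1 x.2) (P.map (φ.comp (algebraMap (𝓞 K) K))) = 0) ∧
    ∀ P : Fin k → MvPolynomial (Ix (mi n)) ℤ, (∀ a, (P a).totalDegree ≤ k) → (∀ a s, |(((P a).coeff s : ℤ) : ℝ)| ≤ H) →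
      ∑ b, ξ b * MvPolynomial.aeval (fun q : Ix (mi n) => PM n (fun q => ((a q : ℤ) : ℂ)) e q.1 q.2.1 q.2.2) (P b) = 0 →
      ∀ Y, (Y, tpi) ∈ TorG n → ∑ b, ξ b * MvPolynomial.aeval (fun q : Ix (mi n) => Y q.1 q.2.1 q.2.2) (P b) = 0

/-- outside the exceptional sets -/
theorem good_of [Nonempty ι] (k : ℕ) : ∃ C : ℕ, ∀ T : ℕ, C ≤ T → ∀ (ξ : Fin k → ℂ) (Lc : Set ((Σ i, Fin (n i + 2)) → ℂ)),
    Lc ⊆ (ahF n).U → ∀ a ∈ BX (wt n) T, cx (sc (wt n) T a) ∈ Lc →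
    xq n T a ∉ ExcT k (ahF n).f (ahF n).Tor Lc ℚ (algebraMap ℚ ℂ) ξ ((exL n k + k : ℕ) : ℝ) (Tp T) →
    xq n T a ∉ ExcT (k * k) (ahF n).f (ahF n).Tor Lc ℚ (algebraMap ℚ ℂ)
      (fun a : Fin (k * k + 1) => tpi ^ (a : ℕ)) ((exL n (k * k) + (k * k + 1) : ℕ) : ℝ) (Tp T) →
    GoodA n k ((T : ℝ) ^ k) ξ a := by
  classical
  obtain ⟨C, hC⟩ := exists_M (σ := Option (Ix (mi n))) k
  refine ⟨max 1 ⌈C⌉₊, fun T hT ξ Lc hL a ha haL hE1 hE2 => ?_⟩
  have hT1 : 1 ≤ T := (le_max_left _ _).trans hT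
  have hTC : C ≤ T := (Nat.le_ceil C).trans (by exact_mod_cast (le_max_right _ _).trans hT)
  have hS : 0 < sd T := sd_pos T
  have hS0 : (0 : ℝ) < (sd T : ℝ) := by exact_mod_cast hS
  set x : (Σ i, Fin (n i + 2)) → ℂ := fun q => (algebraMap ℚ ℂ) (xq n T a q) with hx
  have hxL : x ∈ Lc := by
    rw [hx, xq_cx]
    exact haL
  have hxU : x ∈ UU n := hL hxL
  have hsize : ∀ (L m : ℕ) (y : ℝ), 0 ≤ y → y ≤ (T : ℝ) ^ m →
      (sd T : ℝ) ^ (2 * L) * y ≤ Tp T ^ ((L + m : ℕ) : ℝ) := by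
    intro L m y hy hym
    rw [Real.rpow_natCast, pow_add, pow_mul]
    have h2 : (T : ℝ) ^ m ≤ Tp T ^ m := pow_le_pow_left₀ (Nat.cast_nonneg _) (lt_sd' T).le _
    exact mul_le_mul le_rfl (hym.trans h2) hy (by unfold Tp; positivity)
  have hscp : scp n (sd T) x = fun q => ((a q : ℤ) : ℂ) := by
    funext q
    have h1 : ((sd T : ℕ) : ℂ) ≠ 0 := by exact_mod_cast hS.ne'
    unfold scp
    rw [hx]
    simp only [xq]
    rw [map_div₀, map_pow, map_natCast, eq_ratCast]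
    push_cast
    field_simp
  have hmem := PM_mem hS0 hxU
  rw [hscp] at hmem
  have hU2 : ∀ i, pj (fun q => ((a q : ℤ) : ℂ)) i ∈ U2 (n i) := by
    intro i
    rw [← hscp]
    exact (sc_mem hS0 (hxU i)).1
  refine ⟨fun i => er (pj (fun q => ((a q : ℤ) : ℂ)) i), fun i => ⟨?_, fp_er (hU2 i), er_order (hU2 i)⟩, hmem, ?_, ?_⟩
  · have h1 := lead_ne (hU2 i)
    intro h0
    apply h1
    show ((a ⟨i, Fin.last (n i + 1)⟩ : ℤ) : ℂ) = 0
    rw [h0, Int.cast_zero]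
  · intro K _ _ φ P hK hPd hPc hP0
    obtain ⟨M, hM, hMd, hMc⟩ := hC T hTC K hK P hPd hPc
    -- the norm vanishes at the period point
    have hM0 : MvPolynomial.aeval (ptS (PM n (fun q => ((a q : ℤ) : ℂ))
        (fun i => er (pj (fun q => ((a q : ℤ) : ℂ)) i))) tpi) M = 0 := by
      rw [aeval_int_map, hM, map_prod]
      refine Finset.prod_eq_zero (Finset.mem_univ φ) ?_
      rw [MvPolynomial.aeval_eq_eval]
      exact hP0
    rw [arv_abs M hMd, ← hscp] at hM0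
    have hv := good_full hS (xq_ht ha) hxL hL hE2
      (fun l (b : Fin (k * k + 1)) => M.coeff (osl l b)) (fun l b => hsize _ _ _ (abs_nonneg _) (hMc _)) hM0
    choose X0 hX0 using fun i => exists_X0 (n i)
    have hdes := descent (n := mi n) (fun i => mm_even (n i)) P φ hX0 (fun z hz => by
      rw [← hM, ← aeval_int_map, arv_abs M hMd]
      exact hv z (torG_iff.2 hz))
    intro z hz
    have h1 := hdes z (torG_iff.1 hz)
    rw [MvPolynomial.aeval_eq_eval] at h1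
    exact h1
  · intro P hPd hPc hP0 Y hY
    rw [arv_rel P hPd] at hP0 ⊢
    rw [← hscp] at hP0
    exact (good_arr hS (xq_ht ha) hxL hL hE1 (fun l b => (P b).coeff (fsl l))
      (fun l b => hsize _ _ _ (abs_nonneg _) (hPc _ _)) hP0).1 Y hY

end Pool.Agent.N121.AH
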