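import Pool.Agent.N121.AH.Fam

/-!
# The relations are invariant under the symplectic group: one curve
-/

set_option autoImplicit false
set_option linter.unusedSectionVars false

open Filter Matrix Topology

namespace Pool.Agent.N121.AH

open Pool.Agent.Y118.HP (jm jm_apply SpS jm_det jm_transpose jm_map SpS_map qm dl dl_ne dl_mul bm bm_eq perC TV sp_gen)
open Pool.Agent.Y890.MV
open Pool.Agent.Y890.HE
open Pool.Agent.Y890.SM
open Pool.Agent.N121.OH

variable {n : ℕ}

/-- the coefficients of `c ∏ (x - u e_r)` -/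
noncomputable def va (c : ℂ) (e : Fin (n + 1) → ℂ) : Fin (n + 2) → ℂ := fun k => c * (rp fun r => u0 * e r).coeff (k : ℕ)

theorem va_last (c : ℂ) (e : Fin (n + 1) → ℂ) : va c e (Fin.last (n + 1)) = c := by
  unfold va
  have h1 := rp_monic fun r => u0 * e r
  have h2 := rp_natDegree fun r : Fin (n + 1) => u0 * e r
  have h3 : (rp fun r => u0 * e r).coeff (n + 1) = 1 := by
    have h4 : (rp fun r => u0 * e r).leadingCoeff = 1 := h1
    rw [Polynomial.leadingCoeff, h2] at h4
    exact h4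
  show c * (rp fun r => u0 * e r).coeff (n + 1) = c
  rw [h3, mul_one]

theorem va_bq {c : ℂ} (hc : c ≠ 0) (e : Fin (n + 1) → ℂ) : bq (va c e) = vc (fun r => u0 * e r) := by
  funext k
  unfold bq
  rw [va_last]
  show c * (rp fun r => u0 * e r).coeff (k : ℕ) / c = (rp fun r => u0 * e r).coeff (k : ℕ)
  rw [mul_div_cancel_left₀ _ hc]

theorem va_mem {c : ℂ} (hc : c / u0 ∈ Complex.slitPlane) {e : Fin (n + 1) → ℂ} (he : e ∈ Ord n) : va c e ∈ U2 n := by
  have hc0 : c ≠ 0 := by
    rintro rfl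
    exact Complex.slitPlane_ne_zero hc (zero_div _)
  refine ⟨?_, ?_⟩
  · rw [va_last]
    exact hc
  · rw [va_bq hc0]
    exact vc_mem he

theorem va_rt {c : ℂ} (hc : c ≠ 0) {e : Fin (n + 1) → ℂ} (he : e ∈ Ord n) : rt u0 (bq (va c e)) = e := by
  rw [va_bq hc]
  exact rt_unique u0_ne he (cp_vc _)

/-- the coefficients of the polynomial with given root data -/
theorem va_surj {a : Fin (n + 2) → ℂ} (ha : a ∈ U2 n) : va (a (Fin.last (n + 1))) (rt u0 (bq a)) = a := by
  have h0 := lead_ne ha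
  funext k
  unfold va
  rw [← rt_eq ha.2, ← Polynomial.coeff_C_mul, ← fp_eq h0, fp_coeff_fin]

/-- the coefficients as polynomials in the roots -/
noncomputable def vaP (c : ℂ) (k : ℕ) : MvPolynomial (Fin (n + 1)) ℂ :=
  MvPolynomial.C c * (rp fun r : Fin (n + 1) => MvPolynomial.C u0 * MvPolynomial.X (R := ℂ) r).coeff k

theorem vaP_eval (c : ℂ) (k : ℕ) (e : Fin (n + 1) → ℂ) :
    MvPolynomial.eval e (vaP c k) = c * (rp fun r => u0 * e r).coeff k := by
  unfold vaP
  rw [map_mul, MvPolynomial.eval_C, ← Polynomial.coeff_map, map_rp]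
  simp

/-- the coefficients of the forms as polynomials in the roots -/
noncomputable def cfP (c : ℂ) (k : Fin n) (i : Fin (mm n)) : MvPolynomial (Fin (n + 1)) ℂ :=
  if (i : ℕ) < n / 2 then (if (k : ℕ) = i then 1 else 0) else
    (if (i : ℕ) - n / 2 < k then MvPolynomial.C (((((i : ℕ) - n / 2 : ℕ) : ℂ) - ((k : ℕ) : ℂ)) / 2) *
      (if (i : ℕ) - n / 2 + k + 2 < n + 2 then vaP c ((i : ℕ) - n / 2 + k + 2) else 0) else 0)

theorem cfP_eval (c : ℂ) (k : Fin n) (i : Fin (mm n)) (e : Fin (n + 1) → ℂ) :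
    MvPolynomial.eval e (cfP c k i) = cf n (fp (va c e)) k i := by
  unfold cfP cf
  rw [Matrix.of_apply]
  split_ifs with h1 h2 h3 h4
  · rw [map_one]
  · rw [map_zero]
  · rw [map_mul, MvPolynomial.eval_C, vaP_eval, fp_coeff, dif_pos h4]
    rfl
  · rw [fp_coeff, dif_neg h4, map_mul, map_zero, mul_zero, mul_zero]
  · rw [map_zero]

/-- the transfer of relations to the roots -/
noncomputable def trA (c s : ℂ) : MvPolynomial (Fin (mm n) × Fin (mm n)) (MvPolynomial (Fin (n + 2)) ℂ) →+*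
    MvPolynomial (Fin n × Fin n) (MvPolynomial (Fin (n + 1)) ℂ) :=
  MvPolynomial.eval₂Hom (MvPolynomial.C.comp (MvPolynomial.eval₂Hom MvPolynomial.C fun k : Fin (n + 2) => vaP c k))
    (fun q => ∑ k : Fin n, MvPolynomial.C (MvPolynomial.C (s⁻¹ * (dl (cst q.1) * w0 ^ (2 * (k : ℤ) + 1 - n))) *
      cfP c k q.2) * MvPolynomial.X (cst q.1, k))

/-- the matrix obtained from the values of the periods -/
noncomputable def MA (c s : ℂ) (e : Fin (n + 1) → ℂ) (Z : Matrix (Fin n) (Fin n) ℂ) :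
    Matrix (Fin (mm n)) (Fin (mm n)) ℂ :=
  Matrix.of fun l i => ∑ k : Fin n, s⁻¹ * (dl (cst l) * w0 ^ (2 * (k : ℤ) + 1 - n)) * cf n (fp (va c e)) k i *
    Z (cst l) k

theorem trA_ev (c s : ℂ) (e : Fin (n + 1) → ℂ) (Z : Matrix (Fin n) (Fin n) ℂ)
    (p : MvPolynomial (Fin (mm n) × Fin (mm n)) (MvPolynomial (Fin (n + 2)) ℂ)) :
    evX e (fun q => Z q.1 q.2) (trA c s p) = evX (va c e) (fun q => MA c s e Z q.1 q.2) p := by
  have h1 : (MvPolynomial.eval₂Hom (MvPolynomial.eval e) (fun q : Fin n × Fin n => Z q.1 q.2)).comp (trA c s) =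
      MvPolynomial.eval₂Hom (MvPolynomial.eval (va c e)) (fun q => MA c s e Z q.1 q.2) := by
    refine MvPolynomial.ringHom_ext (fun b => ?_) (fun q => ?_)
    · have h2 : ((MvPolynomial.eval₂Hom (MvPolynomial.eval e) (fun q : Fin n × Fin n => Z q.1 q.2)).comp
          (trA c s)).comp MvPolynomial.C = MvPolynomial.eval (va c e) := by
        refine MvPolynomial.ringHom_ext (fun d => ?_) (fun k => ?_)
        · simp [trA]
        · simp only [RingHom.comp_apply, trA, MvPolynomial.eval₂Hom_C, MvPolynomial.eval₂Hom_X', MvPolynomial.eval_X,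
            vaP_eval]
          rfl
      have h3 := congrArg (fun g => g b) h2
      simp only [RingHom.comp_apply] at h3
      rw [RingHom.comp_apply, h3]
      exact (MvPolynomial.eval₂Hom_C _ _ _).symm
    · simp only [RingHom.comp_apply, trA, MvPolynomial.eval₂Hom_X', map_sum, map_mul, MvPolynomial.eval₂Hom_C,
        MvPolynomial.eval_C, cfP_eval]
      unfold MA
      rw [Matrix.of_apply]
  exact congrArg (fun g => g p) h1

/-- the period matrix in terms of the roots -/
theorem MA_FM {c : ℂ} (hc : c / u0 ∈ Complex.slitPlane) {e : Fin (n + 1) → ℂ} (he : e ∈ Ord n) :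
    MA c (scf n c) e (FM e) = PA (va c e) := by
  have hc0 : c ≠ 0 := by
    rintro rfl
    exact Complex.slitPlane_ne_zero hc (zero_div _)
  ext l i
  unfold MA PA PG
  rw [Matrix.of_apply, Matrix.mul_apply, va_last, va_rt hc0 he]
  refine Finset.sum_congr rfl fun k _ => ?_
  rw [Matrix.submatrix_apply, Matrix.smul_apply, smul_eq_mul]
  unfold PE
  rw [Matrix.of_apply]
  show _ * perC e (cst l) k = (scf n c)⁻¹ * (dl (cst l) * (w0 ^ (2 * (k : ℤ) + 1 - n) * perC e (cst l) k)) * _
  ring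

/-- the action of a matrix on the rows -/
theorem MA_TV (c s : ℂ) (e : Fin (n + 1) → ℂ) (v : Fin (mm n) → ℂ) (t : ℂ) (Z : Matrix (Fin n) (Fin n) ℂ) :
    MA c s e (TV (ez v) t * Z) = (Matrix.of fun l k => dl l * TV v t l k * (dl k)⁻¹) * MA c s e Z := by
  ext l i
  rw [Matrix.mul_apply]
  unfold MA
  simp only [Matrix.of_apply]
  simp only [TV_ez]
  simp only [Matrix.mul_apply, Matrix.submatrix_apply, Finset.mul_sum]
  rw [Finset.sum_comm]
  refine Finset.sum_congr rfl fun r _ => Finset.sum_congr rfl fun k _ => ?_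
  have h1 : dl (cst l) = dl l := rfl
  have h2 : dl (cst r) = dl r := rfl
  rw [h1, h2, id]
  have h3 := dl_ne r
  field_simp

/-- relations are preserved: transvections -/
theorem inv_one (p : MvPolynomial (Fin (mm n) × Fin (mm n)) (MvPolynomial (Fin (n + 2)) ℂ))
    (hp : ∀ a ∈ U2 n, evX a (fun q => PA a q.1 q.2) p = 0) (v : Fin (mm n) → ℂ) (t : ℂ) :
    ∀ a ∈ U2 n, evX a (fun q => ((Matrix.of fun l k => dl l * TV v t l k * (dl k)⁻¹) * PA a) q.1 q.2) p = 0 := by
  intro a ha
  set c := a (Fin.last (n + 1)) with hc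
  set e0 := rt u0 (bq a) with he0
  have hcs : c / u0 ∈ Complex.slitPlane := ha.1
  have he0U : e0 ∈ Ord n := rt_mem ha.2
  have hva : va c e0 = a := va_surj ha
  have h1 : ∀ e ∈ Ord n, evX e (fun q => FM e q.1 q.2) (trA c (scf n c) p) = 0 := by
    intro e he
    rw [trA_ev, MA_FM hcs he]
    exact hp _ (va_mem hcs he)
  have h2 := inv_TV _ h1 (ez v) t e0 he0U
  rw [trA_ev, MA_TV, MA_FM hcs he0U, hva] at h2
  exact h2

/-- substitution `X ↦ g X` -/
noncomputable def sbX (g : Matrix (Fin (mm n)) (Fin (mm n)) ℂ) :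
    MvPolynomial (Fin (mm n) × Fin (mm n)) (MvPolynomial (Fin (n + 2)) ℂ) →+*
    MvPolynomial (Fin (mm n) × Fin (mm n)) (MvPolynomial (Fin (n + 2)) ℂ) :=
  MvPolynomial.eval₂Hom MvPolynomial.C (fun q => ∑ k, MvPolynomial.C (MvPolynomial.C (g q.1 k)) *
    MvPolynomial.X (k, q.2))

theorem sbX_ev (g : Matrix (Fin (mm n)) (Fin (mm n)) ℂ) (a : Fin (n + 2) → ℂ) (Z : Matrix (Fin (mm n)) (Fin (mm n)) ℂ)
    (p : MvPolynomial (Fin (mm n) × Fin (mm n)) (MvPolynomial (Fin (n + 2)) ℂ)) :
    evX a (fun q => Z q.1 q.2) (sbX g p) = evX a (fun q => (g * Z) q.1 q.2) p := by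
  have h1 : (MvPolynomial.eval₂Hom (MvPolynomial.eval a) (fun q : Fin (mm n) × Fin (mm n) => Z q.1 q.2)).comp (sbX g) =
      MvPolynomial.eval₂Hom (MvPolynomial.eval a) (fun q => (g * Z) q.1 q.2) := by
    refine MvPolynomial.ringHom_ext (fun b => ?_) (fun q => ?_)
    · simp [sbX]
    · simp [sbX, Matrix.mul_apply]
  exact congrArg (fun g => g p) h1

/-- the matrices which preserve the relations -/
def MonA (n : ℕ) : Submonoid (Matrix (Fin (mm n)) (Fin (mm n)) ℂ) where
  carrier := {g | ∀ p : MvPolynomial (Fin (mm n) × Fin (mm n)) (MvPolynomial (Fin (n + 2)) ℂ),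
    (∀ a ∈ U2 n, evX a (fun q => PA a q.1 q.2) p = 0) → ∀ a ∈ U2 n, evX a (fun q => (g * PA a) q.1 q.2) p = 0}
  one_mem' := by
    intro p hp a ha
    rw [one_mul]
    exact hp a ha
  mul_mem' := by
    intro g h hg hh p hp a ha
    have h1 : ∀ a ∈ U2 n, evX a (fun q => PA a q.1 q.2) (sbX g p) = 0 := by
      intro a ha
      rw [sbX_ev]
      exact hg p hp a ha
    have h2 := hh _ h1 a ha
    rw [sbX_ev] at h2
    rw [mul_assoc]
    exact h2

/-- the conjugate -/
noncomputable def cj (g : Matrix (Fin (mm n)) (Fin (mm n)) ℂ) : Matrix (Fin (mm n)) (Fin (mm n)) ℂ :=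
  Matrix.of fun l k => dl l * g l k * (dl k)⁻¹

theorem cj_one : cj (1 : Matrix (Fin (mm n)) (Fin (mm n)) ℂ) = 1 := by
  ext l k
  unfold cj
  rw [Matrix.of_apply, Matrix.one_apply]
  split_ifs with h
  · subst h
    rw [mul_one, mul_inv_cancel₀ (dl_ne _)]
  · ring

theorem cj_mul (g h : Matrix (Fin (mm n)) (Fin (mm n)) ℂ) : cj (g * h) = cj g * cj h := by
  ext l k
  unfold cj
  rw [Matrix.of_apply, Matrix.mul_apply, Matrix.mul_apply, Finset.mul_sum, Finset.sum_mul]
  refine Finset.sum_congr rfl fun r _ => ?_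
  rw [Matrix.of_apply, Matrix.of_apply]
  have := dl_ne r
  field_simp

/-- the preimage of the monoid -/
noncomputable def MonB (n : ℕ) : Submonoid (Matrix (Fin (mm n)) (Fin (mm n)) ℂ) where
  carrier := {g | cj g ∈ MonA n}
  one_mem' := by
    show cj 1 ∈ MonA n
    rw [cj_one]
    exact one_mem _
  mul_mem' := by
    intro g h hg hh
    show cj (g * h) ∈ MonA n
    rw [cj_mul]
    exact mul_mem hg hh

/-- **relations are invariant under the symplectic group** -/
theorem inv_sp {g : Matrix (Fin (mm n)) (Fin (mm n)) ℂ} (hg : g ∈ SpS ℂ (mm n)) : g ∈ MonA n := by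
  have h1 := conj_dl hg
  have h2 := sp_gen (mm_even n) (MonB n) (fun v t => by
    show cj (TV v t) ∈ MonA n
    intro p hp a ha
    exact inv_one p hp v t a ha) _ h1
  have h3 : cj (Matrix.of fun l k => (dl l)⁻¹ * g l k * dl k) = g := by
    ext l k
    unfold cj
    rw [Matrix.of_apply, Matrix.of_apply]
    have h4 := dl_ne l
    have h5 := dl_ne k
    field_simp
  have h6 : cj (Matrix.of fun l k => (dl l)⁻¹ * g l k * dl k) ∈ MonA n := h2
  rw [h3] at h6
  exact h6

section an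

theorem PE_diff (l j : Fin n) : DifferentiableOn ℂ (fun a : Fin (n + 2) → ℂ => PE w0 (rt u0 (bq a)) l j) (U2 n) := by
  have h1 : DifferentiableOn ℂ (fun b => perC (rt u0 b) l j) (Un u0 n) :=
    (differentiableOn_perC l j).comp (rt_diff u0_ne n) fun a ha => rt_mem ha
  have h2 : DifferentiableOn ℂ (bq (n := n)) (U2 n) := fun a ha => (bq_diffAt (lead_ne ha)).differentiableWithinAt
  have h3 : DifferentiableOn ℂ (fun a : Fin (n + 2) → ℂ => perC (rt u0 (bq a)) l j) (U2 n) :=
    h1.comp h2 fun a ha => ha.2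
  unfold PE
  simp only [Matrix.of_apply]
  exact (h3.const_mul _).const_mul _

theorem scf_diff : DifferentiableOn ℂ (fun a : Fin (n + 2) → ℂ => (scf n (a (Fin.last (n + 1))))⁻¹) (U2 n) := by
  intro a ha
  refine DifferentiableAt.differentiableWithinAt ?_
  have h1 : DifferentiableAt ℂ (fun a : Fin (n + 2) → ℂ => a (Fin.last (n + 1)) / u0) a := by fun_prop
  have h2 : DifferentiableAt ℂ (fun a : Fin (n + 2) → ℂ => (a (Fin.last (n + 1)) / u0) ^ (1 / 2 : ℂ)) a :=
    h1.cpow (differentiableAt_const _) ha.1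
  unfold scf
  refine DifferentiableAt.fun_inv ((h2.const_mul _).mul_const _) ?_
  exact scf_ne (n := n) (lead_ne ha)

theorem cf_diff (k : Fin n) (i : Fin (mm n)) : Differentiable ℂ (fun a : Fin (n + 2) → ℂ => cf n (fp a) k i) := by
  unfold cf
  simp only [Matrix.of_apply, fp_coeff]
  split_ifs
  · exact differentiable_const _
  · exact differentiable_const _
  · fun_prop
  · simp
  · exact differentiable_const _

theorem PA_diff (l i : Fin (mm n)) : DifferentiableOn ℂ (fun a : Fin (n + 2) → ℂ => PA a l i) (U2 n) := by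
  unfold PA PG
  simp only [Matrix.mul_apply, Matrix.submatrix_apply, Matrix.smul_apply, smul_eq_mul, id]
  refine DifferentiableOn.fun_sum fun k _ => ?_
  exact (scf_diff.mul (PE_diff (cst l) k)).mul (cf_diff k i).differentiableOn

theorem PA_an (l i : Fin (mm n)) : AnalyticOnNhd ℂ (fun a : Fin (n + 2) → ℂ => PA a l i) (U2 n) :=
  Pool.Agent.Y785.MV.Osg.t _ _ (U2_open n) _ (PA_diff l i)

end an

end Pool.Agent.N121.AH
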