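import Pool.Agent.N121.AH.Mon

/-!
# The family of all tuples of hyperelliptic curves, with the coefficients as coordinates
-/

set_option autoImplicit false
set_option linter.unusedSectionVars false

open Filter Matrix Topology

namespace Pool.Agent.N121.AH

open Pool.Agent.Y118.HP (jm jm_apply SpS jm_det jm_transpose jm_map SpS_map qm dl dl_ne dl_mul bm bm_eq perC TV sp_gen)
open Pool.Agent.Y890.MV
open Pool.Agent.Y890.HE
open Pool.Agent.Y890.SM
open Pool.Agent.Y890.SP (Qbar)
open Pool.Agent.N121.OH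

section prod

variable {ι : Type} [Fintype ι] [DecidableEq ι] {X' σ' : ι → Type} [∀ j, Fintype (X' j)] [∀ j, Fintype (σ' j)]

/-- products of transformations which preserve relations -/
theorem inv_sig {U' : ∀ j, Set (X' j → ℂ)} {f' : ∀ j, (X' j → ℂ) → σ' j → ℂ} {A : ∀ j, (σ' j → ℂ) → (σ' j → ℂ)}
    (hA : ∀ j, ∀ p : MvPolynomial (σ' j) (MvPolynomial (X' j) ℂ), (∀ x ∈ U' j, evX x (f' j x) p = 0) →
      ∀ x ∈ U' j, evX x (A j (f' j x)) p = 0)
    (p : MvPolynomial (Σ j, σ' j) (MvPolynomial (Σ j, X' j) ℂ))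
    (hp : ∀ x ∈ USig U', evX x (fun q => f' q.1 (pj x q.1) q.2) p = 0) :
    ∀ x ∈ USig U', evX x (fun q => A q.1 (f' q.1 (pj x q.1)) q.2) p = 0 := by
  classical
  have key : ∀ (S : Finset ι), ∀ x ∈ USig U',
      evX x (fun q => if q.1 ∈ S then A q.1 (f' q.1 (pj x q.1)) q.2 else f' q.1 (pj x q.1) q.2) p = 0 := by
    intro S
    induction S using Finset.induction_on with
    | empty =>
      intro x hx
      simp only [Finset.notMem_empty, if_false]
      exact hp x hx
    | insert j0 S hj0 ih =>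
      intro x hx
      set w : (Σ j, σ' j) → ℂ := fun q => if q.1 ∈ S then A q.1 (f' q.1 (pj x q.1)) q.2 else f' q.1 (pj x q.1) q.2
        with hw
      have h1 : ∀ z ∈ U' j0, evX z (f' j0 z) (sbs x w j0 p) = 0 := by
        intro z hz
        rw [sbs_ev]
        have hx1 : gl x j0 z ∈ USig U' := by
          intro j
          by_cases h : j = j0
          · subst h
            rw [pj_gl_self]
            exact hz
          · rw [pj_gl_ne x z h]
            exact hx j
        have h2 := ih _ hx1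
        rw [← h2]
        congr 1
        funext ⟨j, s⟩
        by_cases h : j = j0
        · subst h
          rw [gl_self]
          simp only [hj0, if_false]
          rw [pj_gl_self]
        · rw [gl_ne _ _ h]
          simp only [hw]
          rw [pj_gl_ne _ _ h]
      have h2 := hA j0 _ h1 (pj x j0) (hx j0)
      rw [sbs_ev, gl_pj] at h2
      rw [← h2]
      congr 1
      funext ⟨j, s⟩
      by_cases h : j = j0
      · subst h
        rw [gl_self]
        simp
      · rw [gl_ne _ _ h]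
        simp only [hw, Finset.mem_insert, h, false_or]
  intro x hx
  have := key Finset.univ x hx
  simpa using this

end prod

variable {ι : Type} {n : ι → ℕ}

/-- the number of the forms -/
abbrev mi (n : ι → ℕ) (i : ι) : ℕ := mm (n i)

/-- the domain -/
def UU (n : ι → ℕ) : Set ((Σ i, Fin (n i + 2)) → ℂ) := USig fun i => U2 (n i)

section conn

theorem slit_conn : IsPreconnected {c : ℂ | c / u0 ∈ Complex.slitPlane} := by
  have h1 : {c : ℂ | c / u0 ∈ Complex.slitPlane} = (fun z => z * u0) '' Complex.slitPlane := by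
    ext c
    constructor
    · intro hc
      exact ⟨c / u0, hc, div_mul_cancel₀ _ u0_ne⟩
    · rintro ⟨z, hz, rfl⟩
      show z * u0 / u0 ∈ Complex.slitPlane
      rw [mul_div_cancel_right₀ _ u0_ne]
      exact hz
  rw [h1]
  have h2 : IsPreconnected Complex.slitPlane :=
    (Complex.starConvex_one_slitPlane.isPathConnected Complex.one_mem_slitPlane).isConnected.isPreconnected
  exact h2.image _ (by fun_prop)

/-- parametrisation by the leading coefficients and the roots -/
noncomputable def Ph (n : ι → ℕ) (c : ι → ℂ) (e : (Σ i, Fin (n i + 1)) → ℂ) (q : Σ i, Fin (n i + 2)) : ℂ :=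
  va (c q.1) (pj e q.1) q.2

theorem pj_Ph (n : ι → ℕ) (c : ι → ℂ) (e : (Σ i, Fin (n i + 1)) → ℂ) (i : ι) : pj (Ph n c e) i = va (c i) (pj e i) := rfl

theorem Ph_cont (n : ι → ℕ) : Continuous fun ce : (ι → ℂ) × ((Σ i, Fin (n i + 1)) → ℂ) => Ph n ce.1 ce.2 := by
  refine continuous_pi fun q => ?_
  have h2 : (fun ce : (ι → ℂ) × ((Σ i, Fin (n i + 1)) → ℂ) => Ph n ce.1 ce.2 q) =
      fun ce : (ι → ℂ) × ((Σ i, Fin (n i + 1)) → ℂ) =>
      ce.1 q.1 * MvPolynomial.eval (pj ce.2 q.1) (vaP 1 (q.2 : ℕ)) := by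
    funext ce
    rw [vaP_eval, one_mul]
    rfl
  rw [h2]
  refine Continuous.mul ((continuous_apply _).comp continuous_fst) ?_
  refine (MvPolynomial.continuous_eval _).comp ?_
  exact continuous_pi fun r => (continuous_apply _).comp continuous_snd

theorem Ph_surj {n : ι → ℕ} {a : (Σ i, Fin (n i + 2)) → ℂ} (ha : a ∈ UU n) :
    Ph n (fun i => pj a i (Fin.last (n i + 1))) (fun q => rt u0 (bq (pj a q.1)) q.2) = a := by
  funext q
  have h1 := congrFun (va_surj (ha q.1)) q.2
  exact h1

theorem Ph_mem {n : ι → ℕ} {c : ι → ℂ} {e : (Σ i, Fin (n i + 1)) → ℂ} (hc : ∀ i, c i / u0 ∈ Complex.slitPlane)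
    (he : ∀ i, pj e i ∈ Ord (n i)) : Ph n c e ∈ UU n := by
  have h1 : ∀ i, pj (Ph n c e) i ∈ U2 (n i) := by
    intro i
    rw [pj_Ph]
    exact va_mem (hc i) (he i)
  exact h1

theorem USig_U2_conn [Fintype ι] [DecidableEq ι] (n : ι → ℕ) : IsPreconnected (UU n) := by
  have h1 : UU n = (fun ce : (ι → ℂ) × ((Σ i, Fin (n i + 1)) → ℂ) => Ph n ce.1 ce.2) ''
      ((Set.univ.pi fun _ => {c : ℂ | c / u0 ∈ Complex.slitPlane}) ×ˢ (USig fun i => Ord (n i))) := by
    ext a
    constructor
    · intro ha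
      have hc : (fun i => pj a i (Fin.last (n i + 1))) ∈ (Set.univ.pi fun _ : ι => {c : ℂ | c / u0 ∈ Complex.slitPlane}) :=
        fun i _ => (ha i).1
      have he : (fun q : Σ i, Fin (n i + 1) => rt u0 (bq (pj a q.1)) q.2) ∈ USig fun i => Ord (n i) := by
        intro i
        have h2 : rt u0 (bq (pj a i)) ∈ Ord (n i) := rt_mem (ha i).2
        exact h2
      have h3 := Ph_surj ha
      generalize (fun i => pj a i (Fin.last (n i + 1))) = c at hc h3
      generalize (fun q : Σ i, Fin (n i + 1) => rt u0 (bq (pj a q.1)) q.2) = e at he h3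
      exact ⟨(c, e), ⟨hc, he⟩, h3⟩
    · rintro ⟨⟨c, e⟩, ⟨hc, he⟩, rfl⟩
      exact Ph_mem (fun i => hc i (Set.mem_univ i)) (fun i => he i)
  rw [h1]
  refine IsPreconnected.image ?_ _ (Ph_cont n).continuousOn
  exact (isPreconnected_univ_pi fun _ => slit_conn).prod (USig_convex fun i => Ord_convex (n i)).isPreconnected

theorem UU_nonempty [Fintype ι] [DecidableEq ι] (n : ι → ℕ) : (UU n).Nonempty := by
  refine USig_nonempty fun i => ⟨va 1 (Ord_nonempty (n i)).choose, va_mem ?_ (Ord_nonempty (n i)).choose_spec⟩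
  left
  unfold u0
  simp [Complex.div_re, Complex.normSq_apply]

end conn

variable [Fintype ι] [DecidableEq ι]

theorem ah_mon (γ : ∀ i, Matrix (Fin (mi n i)) (Fin (mi n i)) ℚ) (hγ : ∀ i, γ i ∈ SpS ℚ (mi n i))
    (p : MvPolynomial (Ix (mi n)) (MvPolynomial (Σ i, Fin (n i + 2)) ℂ))
    (hp : ∀ a ∈ UU n, evX a (fun q => PA (pj a q.1) q.2.1 q.2.2) p = 0) :
    ∀ a ∈ UU n, evX a (fun q => ((γ q.1).map (algebraMap ℚ ℂ) * PA (pj a q.1)) q.2.1 q.2.2) p = 0 := by
  have h1 := inv_sig (U' := fun i => U2 (n i)) (f' := fun i a (q : Fin (mi n i) × Fin (mi n i)) => PA a q.1 q.2)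
    (A := fun i Z q => ∑ k, (γ i).map (algebraMap ℚ ℂ) q.1 k * Z (k, q.2)) (fun i p hp a ha => by
      have h2 := inv_sp (SpS_map (algebraMap ℚ ℂ) (hγ i)) p hp a ha
      rw [← h2]
      congr 1) p hp
  intro a ha
  rw [← h1 a ha]
  congr 1

/-- all products of hyperelliptic curves, in terms of the coefficients -/
noncomputable def ahF (n : ι → ℕ) : SympFam (Σ i, Fin (n i + 2)) (mi n) where
  U := UU n
  isOpen := USig_open fun i => U2_open (n i)
  conn := USig_U2_conn n
  nonempty := UU_nonempty n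
  P := fun i a => PA (pj a i)
  an := fun i l j => by
    exact fSig_an (f' := fun i (q : Fin (mi n i) × Fin (mi n i)) a => PA a q.1 q.2)
      (U' := fun i => U2 (n i)) (fun i s => PA_an s.1 s.2) ⟨i, (l, j)⟩
  w := fun _ => 1
  Q := fun i => (q0 Qbar (n i)).map MvPolynomial.C
  Q_alt := fun i => by
    rw [← Matrix.transpose_map, q0_transpose]
    refine Matrix.ext fun a b => ?_
    rw [Matrix.map_apply, Matrix.neg_apply, Matrix.neg_apply, Matrix.map_apply, map_neg]
  J := fun i => bm ℚ (mi n i)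
  J_alt := fun i => by
    rw [bm_eqQ, Matrix.transpose_smul, jm_transpose, smul_neg]
  J_det := fun i => by
    rw [bm_eqQ, Matrix.det_smul]
    exact mul_ne_zero (pow_ne_zero _ (by norm_num)) (jm_det (mm_even (n i)))
  riemann := fun a ha i => by
    have h1 : ((q0 Qbar (n i)).map MvPolynomial.C).map (MvPolynomial.aeval a) = q0 ℂ (n i) := by
      rw [← q0_map (algebraMap Qbar ℂ)]
      refine Matrix.ext fun r s => ?_
      rw [Matrix.map_apply, Matrix.map_apply, Matrix.map_apply, MvPolynomial.aeval_C]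
    rw [h1, pow_one]
    exact PA_riemann (ha i)
  Γ := {γ | ∀ i, γ i ∈ SpS ℚ (mi n i)}
  pres := fun γ hγ i => bm_pres (hγ i)
  mon := fun γ hγ p hp => ah_mon γ hγ p hp
  dense := fun R hR M hM => dense_prod (fun i => mm_even (n i)) R (fun g hg => hR g hg) M fun i => sp_of_bm (hM i)

end Pool.Agent.N121.AH
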