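import Pool.Agent.N121.AH.Prod

/-!
# The periods as integrals; scaling
-/

set_option autoImplicit false
set_option linter.unusedSectionVars false

open Complex Set MeasureTheory Filter Topology

namespace Pool.Agent.N121.AH

open Pool.Agent.Y118.HP (dl dl_ne perC fac ker qm bm)
open Pool.Agent.Y890.HE (Ord)
open Pool.Agent.Y890.MV
open Pool.Agent.Y890.SM
open Pool.Agent.N121.OH

variable {n : ℕ}

/-- a branch of the square root of `c ∏ (x - e i)` along the segment from `e l` to `e (l + 1)` -/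
noncomputable def rtG (c : ℂ) (e : Fin (n + 1) → ℂ) (l : Fin n) (x : ℂ) : ℂ := scf n c * rtF e l x

/-- the square of the branch -/
theorem rtG_sq {c : ℂ} (hc : c ≠ 0) (e : Fin (n + 1) → ℂ) (l : Fin n) (x : ℂ) :
    rtG c e l x ^ 2 = c * ∏ i, (x - e i) := by
  have h0 : ∀ z : ℂ, (z ^ (1 / 2 : ℂ)) ^ 2 = z := by
    intro z
    rcases eq_or_ne z 0 with rfl | hz
    · rw [zero_cpow (by norm_num)]
      simp
    · rw [sq, half_sq hz]
  unfold rtG rtF
  rw [mul_pow, scf_sq hc, mul_pow, mul_pow, ← Finset.prod_pow]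
  simp only [h0]
  rw [Finset.prod_div_distrib, Finset.prod_const, Finset.card_univ, Fintype.card_fin, ← pow_mul, mul_comm (n + 1) 2,
    pow_mul, h0, ← pow_mul]
  have h1 : ∏ i : Fin (n + 1), (if (i : ℕ) ≤ l then x - e i else e i - x) =
      (∏ i : Fin (n + 1), (if (i : ℕ) ≤ l then (1 : ℂ) else -1)) * ∏ i, (x - e i) := by
    rw [← Finset.prod_mul_distrib]
    refine Finset.prod_congr rfl fun i _ => ?_
    split_ifs <;> ring
  have h2 : (∏ i : Fin (n + 1), (if (i : ℕ) ≤ l then (1 : ℂ) else -1)) = (-1) ^ (n - (l : ℕ)) := by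
    rw [Finset.prod_ite, Finset.prod_const_one, one_mul, Finset.prod_const]
    congr 1
    have h3 : (Finset.univ.filter fun i : Fin (n + 1) => ¬ (i : ℕ) ≤ l) = Finset.Ioi (l.castSucc) := by
      ext i
      simp [Fin.lt_def]
    rw [h3, Fin.card_Ioi]
    simp
  have h4 : (-1 : ℂ) ^ n * (I ^ ((l : ℕ) % 2 * 2) * (-1) ^ (n - (l : ℕ))) = (1 : ℂ) := by
    have h5 : I ^ ((l : ℕ) % 2 * 2) = (-1 : ℂ) ^ (l : ℕ) := by
      rw [mul_comm, pow_mul, I_sq]
      exact (neg_one_pow_eq_pow_mod_two (l : ℕ)).symm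
    rw [h5, ← pow_add, Nat.add_sub_of_le l.2.le, ← mul_pow]
    norm_num
  rw [h1, h2]
  have h6 : (1 + I : ℂ) ^ (n + 1) ≠ 0 := pow_ne_zero _ u_ne
  field_simp
  linear_combination (∏ i, (x - e i)) * h4

/-- the period -/
noncomputable def perG (c : ℂ) (e : Fin (n + 1) → ℂ) (l j : Fin n) : ℂ :=
  2 * ∫ t in (0 : ℝ)..1, (sg (e l.castSucc) (e l.succ) t) ^ (j : ℕ) / rtG c e l (sg (e l.castSucc) (e l.succ) t) *
    (e l.succ - e l.castSucc)

theorem perG_eq (c : ℂ) (e : Fin (n + 1) → ℂ) (l j : Fin n) : perG c e l j = (scf n c)⁻¹ * perF e l j := by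
  have h1 : ∫ t in (0 : ℝ)..1, (sg (e l.castSucc) (e l.succ) t) ^ (j : ℕ) /
      rtG c e l (sg (e l.castSucc) (e l.succ) t) * (e l.succ - e l.castSucc) = (scf n c)⁻¹ * ∫ t in (0 : ℝ)..1,
      (sg (e l.castSucc) (e l.succ) t) ^ (j : ℕ) / rtF e l (sg (e l.castSucc) (e l.succ) t) *
        (e l.succ - e l.castSucc) := by
    rw [← intervalIntegral.integral_const_mul]
    refine intervalIntegral.integral_congr fun t _ => ?_
    unfold rtG
    rw [div_eq_mul_inv, mul_inv, div_eq_mul_inv]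
    ring
  unfold perG perF
  rw [h1]
  ring

/-- the matrix of the periods of the curve `y² = F(x)`, in terms of the leading coefficient and the roots -/
noncomputable def PF (F : Polynomial ℂ) (e : Fin (n + 1) → ℂ) : Matrix (Fin (mm n)) (Fin (mm n)) ℂ :=
  (Matrix.of fun (l : Fin (mm n)) (k : Fin n) => perG (F.coeff (n + 1)) e (cst l) k) * cf n F

/-- the roots -/
noncomputable def er (a : Fin (n + 2) → ℂ) : Fin (n + 1) → ℂ := fun r => u0 * rt u0 (bq a) r

theorem PF_eq {a : Fin (n + 2) → ℂ} (ha : a ∈ U2 n) : PF (fp a) (er a) = PA a := by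
  unfold PF PA
  congr 1
  ext l k
  rw [Matrix.of_apply, Matrix.submatrix_apply, id]
  unfold PG
  rw [Matrix.smul_apply, smul_eq_mul, perG_eq, fp_coeff, dif_pos (by omega)]
  have h1 := perF_eq (rt_mem ha.2) (cst l) k
  have h2 : perF (er a) (cst l) k = _ := h1
  rw [h2]
  rfl

/-- the exponents -/
def ep (n : ℕ) (j : Fin (mm n)) : ℤ := if (j : ℕ) < n / 2 then -1 else 1

theorem scf_scale {s : ℝ} (hs : 0 < s) {c : ℂ} (hc : c ≠ 0) : scf n (((s ^ 2 : ℝ) : ℂ) * c) = s * scf n c := by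
  unfold scf
  have hs2 : 0 < s ^ 2 := by positivity
  rw [mul_div_assoc, mul_cpow_pos hs2 (div_ne_zero hc u0_ne), sqrt_coe hs2.le, Real.sqrt_sq hs.le]
  ring

/-- scaling of the coefficients -/
theorem sc_mem {s : ℝ} (hs : 0 < s) {a : Fin (n + 2) → ℂ} (ha : a ∈ U2 n) :
    (fun k => ((s ^ 2 : ℝ) : ℂ) * a k) ∈ U2 n ∧ bq (fun k => ((s ^ 2 : ℝ) : ℂ) * a k) = bq a := by
  have hs2 : 0 < s ^ 2 := by positivity
  have h0 : ((s ^ 2 : ℝ) : ℂ) ≠ 0 := by exact_mod_cast hs2.ne'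
  have h1 : bq (fun k => ((s ^ 2 : ℝ) : ℂ) * a k) = bq a := by
    funext k
    unfold bq
    rw [mul_div_mul_left _ _ h0]
  refine ⟨⟨?_, ?_⟩, h1⟩
  · have h2 := ha.1
    show ((s ^ 2 : ℝ) : ℂ) * a (Fin.last (n + 1)) / u0 ∈ slitPlane
    rw [mul_div_assoc, Complex.mem_slitPlane_iff, Complex.re_ofReal_mul, Complex.im_ofReal_mul]
    rw [Complex.mem_slitPlane_iff] at h2
    rcases h2 with h2 | h2
    · left
      positivity
    · right
      exact mul_ne_zero hs2.ne' h2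
  · rw [h1]
    exact ha.2

theorem er_scale {s : ℝ} (hs : 0 < s) {a : Fin (n + 2) → ℂ} (ha : a ∈ U2 n) :
    er (fun k => ((s ^ 2 : ℝ) : ℂ) * a k) = er a := by
  unfold er
  rw [(sc_mem hs ha).2]

/-- **scaling of the periods** -/
theorem PA_scale {s : ℝ} (hs : 0 < s) {a : Fin (n + 2) → ℂ} (ha : a ∈ U2 n) (l j : Fin (mm n)) :
    PA (fun k => ((s ^ 2 : ℝ) : ℂ) * a k) l j = (s : ℂ) ^ ep n j * PA a l j := by
  have hs0 : (s : ℂ) ≠ 0 := by exact_mod_cast hs.ne'
  unfold PA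
  rw [Matrix.mul_apply, Matrix.mul_apply, Finset.mul_sum]
  refine Finset.sum_congr rfl fun k _ => ?_
  rw [Matrix.submatrix_apply, Matrix.submatrix_apply]
  unfold PG
  rw [Matrix.smul_apply, Matrix.smul_apply, (sc_mem hs ha).2, scf_scale hs (lead_ne ha), smul_eq_mul, smul_eq_mul]
  unfold cf ep
  rw [Matrix.of_apply, Matrix.of_apply]
  by_cases h1 : (j : ℕ) < n / 2
  · rw [if_pos h1, if_pos h1, if_pos h1, mul_inv, zpow_neg_one]
    ring
  · rw [if_neg h1, if_neg h1, if_neg h1, mul_inv, zpow_one]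
    by_cases h2 : (j : ℕ) - n / 2 < k
    · rw [if_pos h2, if_pos h2, fp_coeff, fp_coeff]
      by_cases h3 : (j : ℕ) - n / 2 + k + 2 < n + 2
      · rw [dif_pos h3, dif_pos h3]
        push_cast
        field_simp
      · rw [dif_neg h3, dif_neg h3]
        ring
    · rw [if_neg h2, if_neg h2]
      ring

theorem er_order {a : Fin (n + 2) → ℂ} (ha : a ∈ U2 n) (r t : Fin (n + 1)) (hrt : r < t) :
    (er a r).re + (er a r).im < (er a t).re + (er a t).im := by
  have h1 := rt_mem ha.2 r t hrt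
  have h2 : ∀ z : ℂ, (u0 * z).re + (u0 * z).im = 2 * z.re := by
    intro z
    unfold u0
    simp
    ring
  unfold er
  rw [h2, h2]
  linarith

theorem fp_er {a : Fin (n + 2) → ℂ} (ha : a ∈ U2 n) : fp a = Polynomial.C (a (Fin.last (n + 1))) * rp (er a) := by
  rw [fp_eq (lead_ne ha), rt_eq ha.2]
  rfl

end Pool.Agent.N121.AH
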